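import Pool.Agent.helper22.MX.TOW

/-!
# Project mx, row UNI: the universal property
-/

namespace MX

open Pool.Agent.helper53.AU AN
open scoped Classical Topology IntermediateField
open Finset (range powerset Icc)

noncomputable section

/-- quadratic step -/
theorem UNI_step {E F M : Type} [Field E] [Field F] [Field M] [Algebra E F] [Algebra E M] (y : F) (φ : E)
    (hy : y ^ 2 + y = algebraMap E F φ) (hgen : IntermediateField.adjoin E ({y} : Set F) = ⊤)
    (hfin : Module.finrank E F = 2) (z : M) (hz : z ^ 2 + z = algebraMap E M φ) :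
    ∃ ψ : F →ₐ[E] M, ψ y = z := by
  have hFD : FiniteDimensional E F := Module.finite_of_finrank_pos (by rw [hfin]; norm_num)
  have hint : IsIntegral E y := Algebra.IsIntegral.isIntegral y
  have hdeg : (minpoly E y).natDegree = 2 := by
    have h1 := IntermediateField.adjoin.finrank hint
    have h2 : Module.finrank E (IntermediateField.adjoin E ({y} : Set F)) = 2 := by
      rw [hgen, IntermediateField.finrank_top', hfin]
    omega
  obtain ⟨p, hp⟩ : ∃ p : Polynomial E, p = Polynomial.X ^ 2 + Polynomial.X - Polynomial.C φ := ⟨_, rfl⟩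
  have hpd : p.natDegree = 2 := by
    rw [hp]
    compute_degree!
  have hpm : p.Monic := by
    rw [hp]
    monicity!
  have hpy : Polynomial.aeval y p = 0 := by
    rw [hp]
    simp [hy]
  have hdvd : minpoly E y ∣ p := minpoly.dvd E y hpy
  have hmin : minpoly E y = p :=
    (Polynomial.eq_of_monic_of_dvd_of_natDegree_le (minpoly.monic hint) hpm hdvd (by omega)).symm
  have hz0 : Polynomial.aeval z (minpoly E y) = 0 := by
    rw [hmin, hp]
    simp [hz]
  have hpb := IntermediateField.adjoin.powerBasis hint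
  let pb : PowerBasis E (IntermediateField.adjoin E ({y} : Set F)) := IntermediateField.adjoin.powerBasis hint
  have hpbg : pb.gen = IntermediateField.AdjoinSimple.gen E y := IntermediateField.adjoin.powerBasis_gen hint
  have hz1 : Polynomial.aeval z (minpoly E pb.gen) = 0 := by
    rw [hpbg, IntermediateField.minpoly_gen]
    exact hz0
  let ψ₁ : IntermediateField.adjoin E ({y} : Set F) →ₐ[E] M := pb.lift z hz1
  let e : F ≃ₐ[E] IntermediateField.adjoin E ({y} : Set F) :=
    ((IntermediateField.equivOfEq hgen).trans IntermediateField.topEquiv).symm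
  refine ⟨ψ₁.comp e.toAlgHom, ?_⟩
  have h1 : e y = IntermediateField.AdjoinSimple.gen E y := by
    rw [AlgEquiv.symm_apply_eq]
    rfl
  show ψ₁ (e y) = z
  rw [h1, ← hpbg]
  exact pb.lift_gen z hz1

/-- Row UNI. -/
theorem UNI (hTOW : TOW_stmt) (hSBF : SBF_stmt) : UNI_stmt := by
  intro k F M _ _ _ _ _ _ hperf x r
  induction r generalizing F with
  | zero =>
    intro y f hAS xM yM hxM _
    have hgen : k⟮x⟯ = ⊤ := by
      have h1 := hAS.gen
      have h2 : ({x} ∪ y '' {j | j < 0} : Set F) = {x} := by
        simp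
      rw [h2] at h1
      exact h1
    let e1 : RatFunc k ≃ₐ[k] k⟮x⟯ := RatFunc.algEquivOfTranscendental x hAS.tr
    let e2 : RatFunc k ≃ₐ[k] k⟮xM⟯ := RatFunc.algEquivOfTranscendental xM hxM
    let e3 : k⟮x⟯ ≃ₐ[k] F := (IntermediateField.equivOfEq hgen).trans IntermediateField.topEquiv
    refine ⟨(k⟮xM⟯.val.comp e2.toAlgHom).comp (e1.symm.toAlgHom.comp e3.symm.toAlgHom), ?_,
      fun j hj => absurd hj (Nat.not_lt_zero _)⟩
    have h1 : e3.symm x = IntermediateField.AdjoinSimple.gen k x := by
      rw [AlgEquiv.symm_apply_eq]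
      rfl
    show k⟮xM⟯.val (e2 (e1.symm (e3.symm x))) = xM
    rw [h1]
    have h2 : e1.symm (IntermediateField.AdjoinSimple.gen k x) = RatFunc.X :=
      RatFunc.algEquivOfTranscendental_symm_gen x hAS.tr
    rw [h2]
    exact RatFunc.algEquivOfTranscendental_X xM hxM
  | succ r ih =>
    intro y f hAS xM yM hxM hyM
    obtain ⟨E, x', y', hx', hy', hE, hASE, hgen⟩ := hSBF k F x r y f hAS
    obtain ⟨ψ₀, h0x, h0y⟩ := ih E x' y' f hASE xM yM hxM (fun j hj => hyM j (Nat.lt_succ_of_lt hj))
    obtain ⟨hfinE, -⟩ := hTOW k E hperf x' r y' f hASE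
    obtain ⟨hfinF, -⟩ := hTOW k F hperf x (r + 1) y f hAS
    have hfin : Module.finrank E F = 2 := by
      have h1 := TOW_finrank k F E x'
      rw [hx', hfinE, hfinF, pow_succ] at h1
      exact (Nat.eq_of_mul_eq_mul_left (by positivity) h1).symm
    let : Algebra E M := ψ₀.toRingHom.toAlgebra
    have halgF : ∀ p : Polynomial k, algebraMap E F (Polynomial.aeval x' p) = Polynomial.aeval x p := by
      intro p
      rw [← Polynomial.aeval_algebraMap_apply]
      exact congrArg (fun t => Polynomial.aeval t p) hx'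
    have halgM : ∀ p : Polynomial k, algebraMap E M (Polynomial.aeval x' p) = Polynomial.aeval xM p := by
      intro p
      show ψ₀ (Polynomial.aeval x' p) = Polynomial.aeval xM p
      rw [← Polynomial.aeval_algHom_apply, h0x]
    obtain ⟨ψ, hψ⟩ := UNI_step (E := E) (F := F) (M := M) (y r) (Polynomial.aeval x' (f r))
      (by rw [halgF]; exact hAS.eq r (Nat.lt_succ_self r)) hgen hfin (yM r)
      (by rw [halgM]; exact hyM r (Nat.lt_succ_self r))
    have hcomm : ∀ z : E, ψ (z : F) = ψ₀ z := fun z => ψ.commutes z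
    let ψ' : F →ₐ[k] M :=
      { ψ.toRingHom with
        commutes' := fun c => by
          have h1 : (algebraMap k F c : F) = ((algebraMap k E c : E) : F) := rfl
          show ψ (algebraMap k F c) = algebraMap k M c
          rw [h1, hcomm, ψ₀.commutes] }
    refine ⟨ψ', ?_, ?_⟩
    · show ψ x = xM
      rw [← hx', hcomm, h0x]
    · intro j hj
      show ψ (y j) = yM j
      rcases Nat.lt_succ_iff_lt_or_eq.1 hj with hj | hj
      · rw [← hy' j hj, hcomm, h0y j hj]
      · rw [hj, hψ]

end

end MX
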