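import Pool.Agent.helper87.AU.AsmQ
import Pool.Agent.helper23.MX.CH2
import Pool.Agent.helper83.MX.PS1
import Pool.Agent.helper38.MX.PS2
import Pool.Agent.helper25.MX.PSS
import Pool.Agent.helper95.MX.CUB
import Pool.Agent.helper93.MX.HLF
import Pool.Agent.helper46.MX.FBP
import Pool.Agent.helper10.MX.FBU
import Pool.Agent.helper67.MX.FAB
import Pool.Agent.helper75.MX.CS0
import Pool.Agent.helper13.MX.CST
import Pool.Agent.helper23.MX.CNG
import Pool.Agent.helper25.MX.CSM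
import Pool.Agent.helper9.MX.PTS
import Pool.Agent.helper27.MX.IDP
import Pool.Agent.helper23.MX.ADD
import Pool.Agent.helper31.MX.IDE
import Pool.Agent.helper40.MX.IDA
import Pool.Agent.helper23.MX.ADL
import Pool.Agent.helper78.MX.CHO
import Pool.Agent.helper23.MX.CTH
import Pool.Agent.helper23.MX.CFR
import Pool.Agent.helper39.MX.CTR
import Pool.Agent.helper24.MX.HAD
import Pool.Agent.helper29.MX.HCB
import Pool.Agent.helper54.MX.OP0
import Pool.Agent.helper27.MX.DES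
import Pool.Agent.helper23.MX.CNE
import Pool.Agent.helper52.MX.OPS
import Pool.Agent.helper93.MX.OPN
import Pool.Agent.helper94.MX.GNA
import Pool.Agent.helper23.MX.GNB
import Pool.Agent.helper34.MX.GNP
import Pool.Agent.helper17.MX.GAS
import Pool.Agent.helper10.MX.GPS
import Pool.Agent.helper23.MX.GAL
import Pool.Agent.helper22.MX.LHE
import Pool.Agent.helper94.MX.LTO
import Pool.Agent.helper93.MX.LCH
import Pool.Agent.helper40.MX.LFI
import Pool.Agent.helper29.MX.SEP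
import Pool.Agent.helper70.MX.LA1
import Pool.Agent.helper6.MX.LA2
import Pool.Agent.helper49.MX.LEX
import Pool.Agent.helper75.MX.GCL
import Pool.Agent.helper48.MX.FBR
import Pool.Agent.helper31.MX.BSE
import Pool.Agent.helper67.MX.SLK
import Pool.Agent.helper50.MX.TPL
import Pool.Agent.helper72.MX.ZER
import Pool.Agent.helper98.MX.BSN
import Pool.Agent.helper41.MX.BSB
import Pool.Agent.helper3.MX.CN1
import Pool.Agent.helper85.MX.CN2
import Pool.Agent.helper32.MX.RTS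
import Pool.Agent.helper40.MX.CNT
import Pool.Agent.helper96.MX.EV1
import Pool.Agent.helper18.MX.EV2
import Pool.Agent.helper24.MX.EV3
import Pool.Agent.helper11.MX.ENG
import Pool.Agent.helper66.MX.RST
import Pool.Agent.helper89.MX.QEL
import Pool.Agent.helper13.MX.QU1
import Pool.Agent.helper78.MX.QU2
import Pool.Agent.helper10.MX.RED
import Pool.Agent.helper54.MX.RTR
import Pool.Agent.helper52.MX.LIN
import Pool.Agent.helper16.MX.SBF
import Pool.Agent.helper22.MX.TOW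
import Pool.Agent.helper57.MX.BAS
import Pool.Agent.helper19.MX.UNI
import Pool.Agent.helper77.MX.AUT
import Pool.Agent.helper32.MX.RHG
import Pool.Agent.helper31.MX.KL4
import Pool.Agent.helper2.MX.FIH
import Pool.Agent.helper95.MX.ACH
import Pool.Agent.helper25.MX.GCM
import Pool.Agent.helper44.MX.RGX
import Pool.Agent.helper94.MX.GE0
import Pool.Agent.helper24.MX.GE1
import Pool.Agent.helper8.MX.GEN
import Pool.Agent.helper72.MX.PSY
import Pool.Agent.helper46.MX.LSP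
import Pool.Agent.helper34.MX.AFE
import Pool.Agent.helper70.MX.AFU
import Pool.Agent.helper39.MX.AFV
import Pool.Agent.helper67.MX.RPT
import Pool.Agent.helper90.MX.EXA
import Pool.Agent.helper83.MX.CEX
import Pool.Agent.helper94.MX.FRM
import Pool.Agent.helper88.MX.CUR
import Pool.Agent.helper85.MX.SPE
import Pool.Agent.helper17.MX.MAI

/-!
# Project mx (MP_a875de_ag): assembly of the rows
-/

namespace MX

open Pool.Agent.helper53.AU AN
open scoped Classical Topology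

theorem a_CH2 : CH2_stmt := MX.CH2
theorem a_PS1 : PS1_stmt := MX.PS1
theorem a_PS2 : PS2_stmt := MX.PS2 a_PS1
theorem a_PSS : PSS_stmt := MX.PSS a_PS1
theorem a_CUB : CUB_stmt := MX.CUB a_CH2 a_PS1 a_PS2 a_PSS
theorem a_HLF : HLF_stmt := MX.HLF a_PS1
theorem a_FBP : FBP_stmt := MX.FBP a_PS1 a_PSS
theorem a_FBU : FBU_stmt := MX.FBU a_PS1 a_PSS
theorem a_FAB : FAB_stmt := MX.FAB a_PS1 a_PSS
theorem a_CS0 : CS0_stmt := MX.CS0 a_CH2 a_PS1 a_CUB
theorem a_CST : CST_stmt := MX.CST a_PS1 a_FBP a_FBU a_HLF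
theorem a_CNG : CNG_stmt := MX.CNG
theorem a_CSM : CSM_stmt := MX.CSM a_CH2 a_CNG a_CS0 a_CST
theorem a_PTS : PTS_stmt := MX.PTS a_PS1 a_PSS
theorem a_IDP : IDP_stmt := MX.IDP
theorem a_ADD : ADD_stmt := MX.ADD
theorem a_IDE : IDE_stmt := MX.IDE a_IDP
theorem a_IDA : IDA_stmt := MX.IDA
theorem a_ADL : ADL_stmt := MX.ADL
theorem a_CHO : CHO_stmt := MX.CHO
theorem a_CTH : CTH_stmt := MX.CTH
theorem a_CFR : CFR_stmt := MX.CFR a_CHO a_CTH
theorem a_CTR : CTR_stmt := MX.CTR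
theorem a_HAD : HAD_stmt := MX.HAD
theorem a_HCB : HCB_stmt := MX.HCB
theorem a_OP0 : OP0_stmt := MX.OP0 a_HAD a_HCB
theorem a_DES : DES_stmt := MX.DES
theorem a_CNE : CNE_stmt := MX.CNE a_CNG
theorem a_OPS : OPS_stmt := MX.OPS a_ADD a_IDP a_IDE a_CNE a_CNG a_HAD a_DES
theorem a_OPN : OPN_stmt := MX.OPN a_OP0 a_OPS a_CNG
theorem a_GNA : GNA_stmt := MX.GNA a_OPN
theorem a_GNB : GNB_stmt := MX.GNB
theorem a_GNP : GNP_stmt := MX.GNP a_ADD a_CFR a_CNE a_CNG a_IDA a_HAD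
theorem a_GAS : GAS_stmt := MX.GAS a_CNG a_GNA a_GNB
theorem a_GPS : GPS_stmt := MX.GPS a_CNG a_GNP a_ADL
theorem a_GAL : GAL_stmt := MX.GAL a_GAS a_GPS
theorem a_LHE : LHE_stmt := MX.LHE
theorem a_LTO : LTO_stmt := MX.LTO a_LHE
theorem a_LCH : LCH_stmt := MX.LCH
theorem a_LFI : LFI_stmt := MX.LFI a_LTO a_LCH a_GAL
theorem a_SEP : SEP_stmt := MX.SEP
theorem a_LA1 : LA1_stmt := MX.LA1
theorem a_LA2 : LA2_stmt := MX.LA2
theorem a_LEX : LEX_stmt := MX.LEX a_LA1 a_LA2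
theorem a_GCL : GCL_stmt := MX.GCL
theorem a_FBR : FBR_stmt := MX.FBR a_SEP a_LEX a_GCL
theorem a_BSE : BSE_stmt := MX.BSE aQV1 aQR1
theorem a_SLK : SLK_stmt := MX.SLK
theorem a_TPL : TPL_stmt := MX.TPL
theorem a_ZER : ZER_stmt := MX.ZER aQV4 aQV5
theorem a_BSN : BSN_stmt := MX.BSN aQV4 aQV5 aQR1 aQR3 a_BSE a_SLK a_TPL
theorem a_BSB : BSB_stmt := MX.BSB aQV1 a_ZER a_BSN
theorem a_CN1 : CN1_stmt := MX.CN1 aQZ3 aQV4 aQE1 aQE2 aQE4
theorem a_CN2 : CN2_stmt := MX.CN2 aQF11 a_CN1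
theorem a_RTS : RTS_stmt := MX.RTS
theorem a_CNT : CNT_stmt := MX.CNT aQR2 a_CN1 a_CN2 a_RTS a_TPL a_BSB
theorem a_EV1 : EV1_stmt := MX.EV1 aQV1
theorem a_EV2 : EV2_stmt := MX.EV2 a_CH2
theorem a_EV3 : EV3_stmt := MX.EV3
theorem a_ENG : ENG_stmt := MX.ENG a_FBR a_CNT a_EV1 a_EV2 a_EV3 aQV4
theorem a_RST : RST_stmt := MX.RST
theorem a_QEL : QEL_stmt := MX.QEL
theorem a_QU1 : QU1_stmt := MX.QU1 a_QEL
theorem a_QU2 : QU2_stmt := MX.QU2 a_QEL
theorem a_RED : RED_stmt := MX.RED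
theorem a_RTR : RTR_stmt := MX.RTR a_QEL
theorem a_LIN : LIN_stmt := MX.LIN
theorem a_SBF : SBF_stmt := MX.SBF
theorem a_TOW : TOW_stmt := MX.TOW a_RST a_QEL a_QU1 a_QU2 a_RED a_RTR a_LIN a_SBF
theorem a_BAS : BAS_stmt := MX.BAS a_TOW
theorem a_UNI : UNI_stmt := MX.UNI a_TOW a_SBF
theorem a_AUT : AUT_stmt := MX.AUT a_UNI
theorem a_RHG : RHG_stmt := MX.RHG aQF11 aQE1 aQE2 aQE3 aQE4 aQE5 aQE6 aQH1 aQH3
theorem a_KL4 : KL4_stmt := MX.KL4 aQF11 a_RHG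
theorem a_FIH : FIH_stmt := MX.FIH a_TOW
theorem a_ACH : ACH_stmt := MX.ACH
theorem a_GCM : GCM_stmt := MX.GCM
theorem a_RGX : RGX_stmt := MX.RGX aQZ3
theorem a_GE0 : GE0_stmt := MX.GE0 a_LIN aQR2 aQA1 aQA3
theorem a_GE1 : GE1_stmt := MX.GE1 a_TOW a_BAS a_AUT a_RGX aQR2 aQA3
theorem a_GEN : GEN_stmt := MX.GEN aQR2 aQE1 a_BAS a_AUT a_KL4 a_FIH a_ACH a_GCM a_GE0 a_GE1
theorem a_PSY : PSY_stmt := MX.PSY
theorem a_LSP : LSP_stmt := MX.LSP
theorem a_AFE : AFE_stmt := MX.AFE a_PSY a_UNI a_LSP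
theorem a_AFU : AFU_stmt := MX.AFU
theorem a_AFV : AFV_stmt := MX.AFV
theorem a_RPT : RPT_stmt := MX.RPT a_AFE a_AFU a_AFV a_TOW
theorem a_EXA : EXA_stmt := MX.EXA
theorem a_CEX : CEX_stmt := MX.CEX a_BAS
theorem a_FRM : FRM_stmt := MX.FRM
theorem a_CUR : CUR_stmt := MX.CUR a_CH2 a_FRM a_EXA a_CEX a_BAS a_GEN a_RPT a_PTS
theorem a_SPE : SPE_stmt := MX.SPE a_CTR a_ENG a_CSM a_FAB a_CNG
theorem a_MAI : MAI_stmt := MX.MAI a_LFI a_SPE a_CUR

end MX
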