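import Pool.Agent.helper48.AN.Problem
import Pool.Agent.helper48.AN.Base

/-!
# Project mx (MP_a875de_ag): maximal curves of every genus over the fields with `4^n` elements, `n` large

Part 1: the statement. Function fields, places, genus: `Pool/Agent/helper53/AU/Defs.lean` (`IsFF`, `Place`, `IsGenus`)
and `Pool/Agent/helper87/AU/GDefs.lean` (`Place.Ge`); constant field extensions:
`Pool/Agent/helper48/AN/Problem.lean` (`IsConstExt`).
Part 2: quadratic forms, certificates, spaces of forms.
Part 3: elementary abelian covers of the line.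
-/

namespace MX

open Pool.Agent.helper53.AU AN
open scoped Classical Topology

noncomputable section

/-! ## Part 1: the statement -/

/-- The place `P` of the function field `F / K` has degree one: its residue field is `K`
(the residue of every function regular at `P` is a constant). -/
def DegOne {K F : Type} [Field K] [Field F] [Algebra K F] (P : Place K F) : Prop :=
  ∀ f : F, P.Ge 0 f → ∃ c : K, P.Ge 1 (f - algebraMap K F c)

/-- the number of the places of degree one, that is of the `K`-rational points of the smooth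
projective curve with the function field `F / K` -/
def numPts (K F : Type) [Field K] [Field F] [Algebra K F] : ℕ := Nat.card {P : Place K F // DegOne P}

/-- There is a maximal curve of genus `g` over the finite field `K`: a smooth, projective, geometrically
irreducible curve `X` over `K` of genus `g` with `#X(K) = q + 1 + 2 g √q`, `q = #K`. The curve is given
by its function field `F / K`; `F'` is the constant field extension of `F` by an algebraic closure of `K` (the function
field of the curve over the algebraic closure), and the genus is the genus of `F'`. -/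
def HasMaxCurve (K : Type) [Field K] [Fintype K] (g : ℕ) : Prop :=
  ∃ (F : Type) (_ : Field F) (_ : Algebra K F) (F' : Type) (_ : Field F')
    (_ : Algebra (AlgebraicClosure K) F') (j : F →+* F'),
    IsFF K F ∧ IsConstExt K (AlgebraicClosure K) F F' j ∧ IsFF (AlgebraicClosure K) F' ∧
      IsGenus (AlgebraicClosure K) F' g ∧
      (numPts K F : ℝ) = (Fintype.card K : ℝ) + 1 + 2 * (g : ℝ) * Real.sqrt (Fintype.card K : ℝ)

/-! ## Part 2: forms and certificates -/

section forms
variable {L : Type} [Field L]

/-- the nontrivial additive character of a finite field of characteristic 2 with kernel `{y ^ 2 + y}` -/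
def ps (z : L) : ℤ := if ∃ y : L, y ^ 2 + y = z then 1 else -1

/-- the form of level `h` with `a`-coordinates `a 0, ..., a h` -/
def fa (h : ℕ) (a : ℕ → L) (x : L) : L := ∑ i ∈ Finset.range (h + 1), a i * x ^ (2 ^ i + 1)

/-- the form of level `h` with `b`-coordinates `b 0, ..., b h` -/
def fb (h : ℕ) (b : ℕ → L) (x : L) : L :=
  ∑ i ∈ Finset.range (h + 1), b i * x ^ (2 ^ h) * x ^ (2 ^ (h - i))

/-- the additive polynomial attached to a form in `b`-coordinates -/
def PP (h : ℕ) (b : ℕ → L) (X : L) : L :=
  ∑ i ∈ Finset.Icc 1 h, (b i ^ (2 ^ i) * X ^ (2 ^ (h + i)) + b i * X ^ (2 ^ (h - i)))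

/-- cutting off the coordinates beyond `h` -/
def cut (h : ℕ) (b : ℕ → L) (i : ℕ) : L := if i ≤ h then b i else 0

/-- the form of level `h + 1` obtained from the form `b` of level `h` by the substitution `x ^ 2 + d x` -/
def Ud (h : ℕ) (b : ℕ → L) (d : L) (i : ℕ) : L :=
  cut h b i + cut h b i ^ 2 * d ^ (2 ^ (h + 1) + 2 ^ (h + 1 - i)) +
    (if 2 ≤ i then cut h b (i - 1) * d ^ (2 ^ (h + 1 - i)) else 0) +
    cut h b (i + 1) ^ 2 * d ^ (2 ^ (h + 1))

/-- certificates: the chain of substitutions which leads from a form of level 1 to the form `b` of level `h` -/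
inductive Cert (L : Type) [Field L] (θ : L) : ℕ → (ℕ → L) → Prop
  | base (b : ℕ → L) (v r y : L) : v ≠ 0 → b 1 = v ^ 3 → b 0 = v ^ 4 * (r + r ^ 4) →
      y ^ 2 + y = r ^ 3 + θ → Cert L θ 1 b
  | step (h : ℕ) (b c : ℕ → L) (d β y : L) : Cert L θ h b → d ≠ 0 →
      PP h b β * d ^ (2 ^ (h + 1)) = 1 → y ^ 2 + y = fb h b β →
      (∀ i, i ≤ h + 1 → c i = Ud h b d i) → Cert L θ (h + 1) c

/-- from `a`-coordinates to `b`-coordinates (level `h`) -/
def bb (h : ℕ) (a : ℕ → L) (i : ℕ) : L := a i ^ (2 ^ (h - i))

/-- the form `a` has level `h` -/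
def Lev (h : ℕ) (a : ℕ → L) : Prop := a h ≠ 0 ∧ ∀ i, h < i → a i = 0

/-- the operation `P` in `a`-coordinates -/
def Ad (a : ℕ → L) (d : L) (j : ℕ) : L :=
  (if 2 ≤ j then d * a (j - 1) ^ 2 else 0) + a j + a j ^ 2 * d ^ (2 ^ j + 1) + a (j + 1) * d ^ (2 ^ j)

/-- the sum of the forms `A j`, `j ∈ T` -/
def sumT (A : ℕ → ℕ → L) (T : Finset ℕ) (i : ℕ) : L := ∑ j ∈ T, A j i

/-- the space spanned by the forms `A 0, ..., A (r - 1)` is good: all nonzero elements have certificates;
`lev` is the level -/
structure Good (L : Type) [Field L] (θ : L) (r : ℕ) (A : ℕ → ℕ → L) (lev : Finset ℕ → ℕ) : Prop where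
  level : ∀ T ⊆ Finset.range r, T ≠ ∅ → Lev (lev T) (sumT A T)
  cert : ∀ T ⊆ Finset.range r, T ≠ ∅ → Cert L θ (lev T) (bb (lev T) (sumT A T))

/-- the genus attached to a space of forms -/
def GG (r : ℕ) (lev : Finset ℕ → ℕ) : ℕ := ∑ T ∈ (Finset.range r).powerset.erase ∅, 2 ^ (lev T - 1)

end forms

/-- the implicit function theorem for polynomials in one variable over a topological field -/
def HH (L : Type) [Field L] [TopologicalSpace L] : Prop :=
  ∀ (m : ℕ) (c : ℕ → L) (x₀ : L), ∑ i ∈ Finset.range (m + 1), c i * x₀ ^ i = 0 →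
    ∑ i ∈ Finset.range (m + 1), (i : L) * c i * x₀ ^ (i - 1) ≠ 0 →
    ∀ U ∈ 𝓝 x₀, ∀ᶠ c' in 𝓝 c, ∃ x ∈ U, ∑ i ∈ Finset.range (m + 1), c' i * x ^ i = 0

/-! ## Part 3: elementary abelian covers of the line -/

/-- `F = k(x, y 0, ..., y (r-1))` with `y j ^ 2 + y j = f j (x)`; all nonempty partial sums of the
polynomials `f j` have odd degree. -/
structure AS (k F : Type) [Field k] [Field F] [Algebra k F] (x : F) (r : ℕ) (y : ℕ → F)
    (f : ℕ → Polynomial k) : Prop where
  tr : Transcendental k x
  gen : IntermediateField.adjoin k ({x} ∪ y '' {j | j < r}) = ⊤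
  eq : ∀ j < r, y j ^ 2 + y j = Polynomial.aeval x (f j)
  odd : ∀ T ⊆ Finset.range r, T ≠ ∅ → Odd (∑ j ∈ T, f j).natDegree

/-- the genus of such a cover -/
def gAS {k : Type} [Field k] (r : ℕ) (f : ℕ → Polynomial k) : ℕ :=
  ∑ T ∈ (Finset.range r).powerset.erase ∅, ((∑ j ∈ T, f j).natDegree - 1) / 2

/-- the form `a` of level `h` as a polynomial -/
def pa {k : Type} [Field k] (h : ℕ) (a : ℕ → k) : Polynomial k :=
  ∑ i ∈ Finset.range (h + 1), Polynomial.C (a i) * Polynomial.X ^ (2 ^ i + 1)

/-! ## Part 4: the local field -/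

/-- the variable `s` of the field of Laurent series over the field with two elements -/
def sv : LS (ZMod 2) := mono 1 1

/-- the Laurent series over the field with two elements which are algebraic over the field of rational functions -/
def Lamf : Subfield (LS (ZMod 2)) :=
  (algebraicClosure (IntermediateField.adjoin (ZMod 2) ({sv} : Set (LS (ZMod 2))))
    (LS (ZMod 2))).toSubfield

abbrev Lam : Type := ↥Lamf

theorem sv_mem : sv ∈ Lamf := by
  have h : IsAlgebraic (IntermediateField.adjoin (ZMod 2) ({sv} : Set (LS (ZMod 2)))) sv := by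
    have h0 : sv ∈ IntermediateField.adjoin (ZMod 2) ({sv} : Set (LS (ZMod 2))) :=
      IntermediateField.subset_adjoin _ _ (Set.mem_singleton _)
    exact isAlgebraic_algebraMap (⟨sv, h0⟩ : IntermediateField.adjoin (ZMod 2) ({sv} : Set (LS (ZMod 2))))
  exact mem_algebraicClosure_iff.2 h

/-- `s` as an element of `Lam` -/
def sL : Lam := ⟨sv, sv_mem⟩

/-- `θ = s ^ (-3)` -/
def thL : Lam := (sL⁻¹) ^ 3

end

end MX
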