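import Pool.Agent.helper19.MX.Defs

/-!
# Project mx (MP_a875de_ag), block A: finite fields, algebra of certificates, perturbation

Rules: file `Pool/Agent/<seat>/MX/XX.lean`, `import Pool.Agent.helper19.MX.SpecA`, `namespace MX`,
`theorem XX (h : YY_stmt) ... : XX_stmt` (the hypotheses listed in the lock note, in this order); every other row may be
assumed, no row waits for another. Auxiliary lemmas prefixed `XX_`. No double quotes, no `convert`, no `congr!`.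
Notes: `/team-store/MX_NOTES.md`.
-/

set_option linter.unusedVariables false

namespace MX

open Pool.Agent.helper53.AU AN
open scoped Classical Topology
open Finset (range powerset Icc)

noncomputable section

/-! ## Finite fields: `ps` is `+1` on `{y ^ 2 + y}` and `-1` elsewhere -/

/-- CH2 (short): the characteristic. (`CharP.card`... the characteristic `p` divides the cardinality `4 ^ n`; `n ≥ 1` because a
field has at least two elements.) -/
def CH2_stmt : Prop := ∀ (K : Type) [Field K] [Fintype K] (n : ℕ), Fintype.card K = 4 ^ n →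
  CharP K 2 ∧ 1 ≤ n

/-- PS1 (short-medium): `ps` is a character.
Proof: `u ↦ u ^ 2 + u` is additive with kernel `{0, 1}`, so its image `I` has `#K / 2` elements; if `z, w ∉ I` then `z + w ∈ I`
(the cosets `I`, `z + I` cover `K`). `z ^ 2 = z + (z ^ 2 + z)`, so `ps (z ^ 2) = ps z`; induction. -/
def PS1_stmt : Prop := ∀ (K : Type) [Field K] [Fintype K] [CharP K 2],
  ps (0 : K) = 1 ∧ (∀ z w : K, ps (z + w) = ps z * ps w) ∧ (∀ u : K, ps (u ^ 2 + u) = 1) ∧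
  (∀ (z : K) (j : ℕ), ps (z ^ (2 ^ j)) = ps z) ∧ (∀ z : K, ps z = 1 ∨ ps z = -1) ∧
  ∃ z : K, ps z = -1

/-- PS2 (short): orthogonality. From PS1: `∑ ps = 0` (translate by an element with `ps = -1`). -/
def PS2_stmt : Prop := ∀ (K : Type) [Field K] [Fintype K] [CharP K 2],
  (∀ c : K, c ≠ 0 → ∑ z : K, ps (c * z) = 0) ∧ (∀ c : K, (∀ z : K, ps (c * z) = 1) → c = 0)

/-- PSS (short): sums: `ps (∑ z_i) = ∏ ps (z_i)` (from PS1). -/
def PSS_stmt : Prop := ∀ (K : Type) [Field K] [Fintype K] [CharP K 2] (ι : Type) (s : Finset ι) (z : ι → K),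
  ps (∑ i ∈ s, z i) = ∏ i ∈ s, ps (z i)

/-- CUB (medium): the cubic sum.
Proof: `S = ∑ ps (x ^ 3)`. `S ^ 2 = ∑_{x, w} ps (x ^ 3 + (x + w) ^ 3) = ∑_w ps (w ^ 3) ∑_x ps (x ^ 2 w + x w ^ 2)`;
`ps (x ^ 2 w + x w ^ 2) = ps (x ^ 2 w) ps (x ^ 2 w ^ 4) = ps (x ^ 2 (w + w ^ 4))` (`ps (x w ^ 2) = ps (x ^ 2 w ^ 4)`), so the inner sum is `4 ^ n` if
`w + w ^ 4 = 0` and 0 otherwise (PS2; `x ↦ x ^ 2` is bijective). There are 4 such `w` (0 and the cube roots of 1; `3 ∣ 4 ^ n - 1`), and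
`ps (w ^ 3) = ps 1 = 1`: `1 = c ^ 2 + c` for a primitive cube root `c` of 1. So `S ^ 2 = 4 ^ (n + 1)`. The fibres of `x ↦ x ^ 3` on `K \ 0` have
3 elements, so `S = 1` modulo 3, and `2 ^ (n + 1) = (-1) ^ (n + 1)` modulo 3. -/
def CUB_stmt : Prop := ∀ (K : Type) [Field K] [Fintype K] (n : ℕ), Fintype.card K = 4 ^ n →
  ∑ x : K, ps (x ^ 3) = (-1) ^ (n + 1) * 2 ^ (n + 1)

/-- HLF (short): `x ↦ x ^ 2 + d x` has the image `{z : ps (z / d ^ 2) = 1}` and fibres with 2 elements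
(`x = d u`: `x ^ 2 + d x = d ^ 2 (u ^ 2 + u)`). -/
def HLF_stmt : Prop := ∀ (K : Type) [Field K] [Fintype K] [CharP K 2] (d : K), d ≠ 0 → ∀ G : K → ℤ,
  ∑ x : K, G (x ^ 2 + d * x) = ∑ z : K, G z * (1 + ps (z * (d ^ 2)⁻¹))

/-- FBP (medium): the polar form.
Proof: `fb h b (z + w) = fb h b z + fb h b w + ∑_i b_i (z ^ (2^h) w ^ (2^(h-i)) + w ^ (2^h) z ^ (2^(h-i)))` (additive powers). The term `i = 0`
vanishes. `ps (b_i w ^ (2^h) z ^ (2^(h-i))) = ps` of its `2^i`-th power `= ps (b_i ^ (2^i) w ^ (2^(h+i)) z ^ (2^h))` (PS1). -/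
def FBP_stmt : Prop := ∀ (K : Type) [Field K] [Fintype K] [CharP K 2] (h : ℕ) (b : ℕ → K) (z w : K),
  ps (fb h b (z + w)) = ps (fb h b z) * ps (fb h b w) * ps (z ^ (2 ^ h) * PP h b w)

/-- FBU (medium): `(I1)`, the substitution `x ^ 2 + d x`.
Proof: expand. For `1 ≤ i ≤ h`: `b_i (x^(2^(h+1)) + d^(2^h) x^(2^h)) (x^(2^(h-i+1)) + d^(2^(h-i)) x^(2^(h-i)))` is the sum of
`b_i x^(2^(h+1)) x^(2^(h+1-i))` (coordinate `i`), `b_i d^(2^(h-i)) x^(2^(h+1)) x^(2^(h-i))` (coordinate `i + 1`),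
`b_i d^(2^h) x^(2^h) x^(2^(h+1-i))` (its square: coordinate `i - 1`, coefficient `b_i ^ 2 d^(2^(h+1))`), `b_i d^(2^h+2^(h-i)) x^(2^h) x^(2^(h-i))`
(its square: coordinate `i`). For `i = 0`: `b_0 (x ^ 2 + d x)^(2^(h+1)) = b_0 x^(2^(h+2)) + b_0 d^(2^(h+1)) x^(2^(h+1))`, the square of the second
term has coordinate 0. Use `ps (u ^ 2) = ps u` and PSS. -/
def FBU_stmt : Prop := ∀ (K : Type) [Field K] [Fintype K] [CharP K 2] (h : ℕ), 1 ≤ h →
  ∀ (b : ℕ → K) (d x : K), ps (fb (h + 1) (Ud h b d) x) = ps (fb h b (x ^ 2 + d * x))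

/-- FAB (short): `a`-coordinates: `(a_i x ^ (2^i+1)) ^ (2^(h-i)) = b_i x ^ (2^h) x ^ (2^(h-i))`. -/
def FAB_stmt : Prop := ∀ (K : Type) [Field K] [Fintype K] [CharP K 2] (h : ℕ) (a : ℕ → K) (x : K),
  ps (fa h a x) = ps (fb h (bb h a) x)

/-- CS0 (medium): level 1. With `m ^ 2 = r` (a finite field of characteristic 2 is perfect):
`fb 1 b x = v^4 (r + r^4) x^4 + v^3 x^3` (note `fb 1 b x = b 0 * x^2 * x^2 + b 1 * x^2 * x`), and
`(v x + m)^3 + m^3 = v^3 x^3 + v^2 m x^2 + v m^2 x`, `ps (v^2 m x^2) = ps (v^4 m^2 x^4)`, `ps (v m^2 x) = ps (v^4 m^8 x^4)`. So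
`ps (fb 1 b x) = ps ((v x + m)^3) ps (m^3)`, and `ps (m ^ 3) = ps (r ^ 3) = ps (y^2 + y + θ) = ps θ`; substitute `x ↦ v x + m` (a bijection), CUB. -/
def CS0_stmt : Prop := ∀ (K : Type) [Field K] [Fintype K] (n : ℕ), Fintype.card K = 4 ^ n →
  ∀ (θ : K) (b : ℕ → K) (v r y : K), v ≠ 0 → b 1 = v ^ 3 → b 0 = v ^ 4 * (r + r ^ 4) →
    y ^ 2 + y = r ^ 3 + θ → ∑ x : K, ps (fb 1 b x) = ps θ * ((-1) ^ (n + 1) * 2 ^ (n + 1))

/-- CST (medium): the step. Proof: by FBU and HLF the new sum is `∑_z ps (fb h b z) (1 + ps (z (d^2)⁻¹))`. By FBP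
`ps (fb h b (z + β)) = ps (fb h b z) ps (fb h b β) ps (z^(2^h) PP h b β)`, `ps (fb h b β) = ps (y^2 + y) = 1`, and
`z^(2^h) PP h b β = z^(2^h) (d^(2^(h+1)))⁻¹ = (z (d^2)⁻¹)^(2^h)`. So the second part is `∑_z ps (fb h b (z + β)) =` the first part. -/
def CST_stmt : Prop := ∀ (K : Type) [Field K] [Fintype K] [CharP K 2] (h : ℕ), 1 ≤ h →
  ∀ (b : ℕ → K) (d β y : K), d ≠ 0 → PP h b β * d ^ (2 ^ (h + 1)) = 1 → y ^ 2 + y = fb h b β →
    ∑ x : K, ps (fb (h + 1) (Ud h b d) x) = 2 * ∑ x : K, ps (fb h b x)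

/-- CSM (short): the sum of a certified form. Induction on the certificate (CS0, CST; `fb` uses only the
coordinates `≤ h`). -/
def CSM_stmt : Prop := ∀ (K : Type) [Field K] [Fintype K] (n : ℕ), Fintype.card K = 4 ^ n →
  ∀ (θ : K), ps θ = (-1) ^ (n + 1) → ∀ (h : ℕ) (b : ℕ → K), Cert K θ h b →
    ∑ x : K, ps (fb h b x) = 2 ^ h * 2 ^ n

/-- PTS (medium): the number of affine points.
Proof: for fixed `x` the number of `y` is `∏_j #{t : t^2 + t = z_j} = ∏_j (1 + ps z_j) = ∑_T ∏_{j ∈ T} ps z_j`, `z_j = f_j(x)`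
(`#{t : t^2+t = z} = 1 + ps z`: the fibres have 2 or 0 elements), and `∏_{j ∈ T} ps z_j = ps (∑_{j ∈ T} z_j)` (PSS). `Finset.prod_one_add` or
`Finset.prod_add`. -/
def PTS_stmt : Prop := ∀ (K : Type) [Field K] [Fintype K] [CharP K 2] (r : ℕ) (f : ℕ → K → K),
  (Nat.card {p : K × (Fin r → K) // ∀ j : Fin r, p.2 j ^ 2 + p.2 j = f j p.1} : ℤ) =
    ∑ T ∈ (range r).powerset, ∑ x : K, ps (∑ j ∈ T, f j x)

/-! ## Algebra of certificates -/

/-- IDP (medium): `(I2)`.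
Proof: both sides are sums of monomials; write `Y = X^2 + d X`, `Y^(2^j) = X^(2^(j+1)) + d^(2^j) X^(2^j)`. For the coordinate `i` of `b`
(`1 ≤ i ≤ h`), by additivity in `b` (both sides are additive in `b`: only `b_i ^ (2^i)`-type powers occur, characteristic 2) it is enough to
compare the contributions of `b_i`: on the left `c = Ud h b d` has the coordinates `c_i = b_i + b_i^2 d^(2^(h+1)+2^(h+1-i))`,
`c_{i+1} = b_i d^(2^(h-i))`, `c_{i-1} = b_i^2 d^(2^(h+1))` (the coordinate 0 does not enter `PP`), on the right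
`Z + d^(2^(h+1)) Z^2`, `Z = b_i^(2^i) Y^(2^(h+i)) + b_i Y^(2^(h-i))`. (Checked numerically.) -/
def IDP_stmt : Prop := ∀ (L : Type) [Field L] [CharP L 2] (h : ℕ), 1 ≤ h → ∀ (b : ℕ → L) (d X : L),
  PP (h + 1) (Ud h b d) X = PP h b (X ^ 2 + d * X) + d ^ (2 ^ (h + 1)) * PP h b (X ^ 2 + d * X) ^ 2

/-- ADD (short): `PP` is additive in `X`; it is an additive polynomial with the coefficient `b h` at `X`.
The coefficients: `g j` for `X ^ (2 ^ j)`, `j ≤ 2 h`: `g (h + i) = b_i ^ (2^i)`, `g (h - i) = b_i` (`1 ≤ i ≤ h`), `g h = 0`. -/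
def ADD_stmt : Prop := ∀ (L : Type) [Field L] [CharP L 2] (h : ℕ), 1 ≤ h → ∀ (b : ℕ → L),
  (∀ X Y : L, PP h b (X + Y) = PP h b X + PP h b Y) ∧
  ∀ X : L, PP h b X = ∑ j ∈ range (2 * h + 1),
    (if j < h then b (h - j) else if j = h then 0 else b (j - h) ^ (2 ^ (j - h))) * X ^ (2 ^ j)

/-- IDE (medium): the defect. If `c` (level `h + 1`) agrees with `Ud h b d` in the coordinates `2, ..., h + 1` then, with
`E = c 1 + Ud h b d 1`, `PP (h+1) c X = PP (h+1) (Ud h b d) X + E^2 X^(2^(h+2)) + E X^(2^h)`; put `X = d` and use IDP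
(`d^2 + d d = 0`, `PP h b 0 = 0`). -/
def IDE_stmt : Prop := ∀ (L : Type) [Field L] [CharP L 2] (h : ℕ), 1 ≤ h → ∀ (b c : ℕ → L) (d : L),
  (∀ i, 2 ≤ i → i ≤ h + 1 → c i = Ud h b d i) →
    PP (h + 1) c d = (c 1 + Ud h b d 1) ^ 2 * d ^ (2 ^ (h + 2)) + (c 1 + Ud h b d 1) * d ^ (2 ^ h)

/-- IDA (short-medium): `(I3)`. Proof: raise `Ad a d i` to the power `2^(h+1-i)` (additive in characteristic 2) and compare the four terms;
`a (h+1) = 0` and for `i = h + 1` the terms with `a (h+1)`, `a (h+2)` vanish. -/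
def IDA_stmt : Prop := ∀ (L : Type) [Field L] [CharP L 2] (h : ℕ), 1 ≤ h → ∀ (a : ℕ → L) (d : L), Lev h a →
  ∀ i, i ≤ h + 1 → bb (h + 1) (Ad a d) i = Ud h (fun j => bb h a j ^ 2) d i

/-- ADL (short): levels and sums under `Ad`. -/
def ADL_stmt : Prop := ∀ (L : Type) [Field L] [CharP L 2],
  (∀ (h : ℕ) (a : ℕ → L) (d : L), 1 ≤ h → d ≠ 0 → Lev h a → Lev (h + 1) (Ad a d)) ∧
  ∀ (A : ℕ → ℕ → L) (T : Finset ℕ) (d : L), sumT (fun j => Ad (A j) d) T = Ad (sumT A T) d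

/-- CHO (short-medium): certificates are functorial. Induction on the certificate; `φ` commutes with `fb`, `PP`, `Ud`, `cut`. -/
def CHO_stmt : Prop := ∀ (L M : Type) [Field L] [Field M] (φ : L →+* M) (θ : L) (h : ℕ) (b : ℕ → L),
  Cert L θ h b → Cert M (φ θ) h (fun i => φ (b i))

/-- CNG (short): a certificate depends only on the coordinates `≤ h`, and `h ≥ 1`. (Cases on the certificate.) -/
def CNG_stmt : Prop := ∀ (L : Type) [Field L] (θ : L) (h : ℕ) (b : ℕ → L), Cert L θ h b →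
  1 ≤ h ∧ ∀ c : ℕ → L, (∀ i, i ≤ h → c i = b i) → Cert L θ h c

/-- CTH (short): change of `θ`: replace `y` by `y + t` in the base. -/
def CTH_stmt : Prop := ∀ (L : Type) [Field L] [CharP L 2] (θ t : L) (h : ℕ) (b : ℕ → L), Cert L θ h b →
  Cert L (θ + t ^ 2 + t) h b

/-- CFR (short): squares. CHO for the Frobenius homomorphism, CTH for `θ ^ 2` and `t = θ`: `θ ^ 2 + θ ^ 2 + θ = θ`. -/
def CFR_stmt : Prop := ∀ (L : Type) [Field L] [CharP L 2] (θ : L) (h : ℕ) (b : ℕ → L), Cert L θ h b →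
  Cert L θ h (fun i => b i ^ 2)

/-- CTR (medium): transfer along ring homomorphisms defined on a subring: `E` is the finite set of all elements in the certificate
and the inverses of `v`, `d` (in order that the images are nonzero). Induction on the certificate. -/
def CTR_stmt : Prop := ∀ (L : Type) [Field L] (θ : L) (h : ℕ) (b : ℕ → L), Cert L θ h b →
  ∃ E : Finset L, ∀ (A : Subring L), (E : Set L) ⊆ A → ∀ (K : Type) [Field K] (φ : A →+* K)
    (hθ : θ ∈ A) (b' : ℕ → K), (∀ i, i ≤ h → ∃ hb : b i ∈ A, b' i = φ ⟨b i, hb⟩) → Cert K (φ ⟨θ, hθ⟩) h b'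

/-! ## Perturbation over topological fields -/

/-- HAD (medium): additive equations. Apply HH to the polynomial `∑ c_j X^(2^j) - η` (degree `2^m`; its derivative is the constant `c 0` in
characteristic 2); the coefficient family depends continuously on `(c, η)`. -/
def HAD_stmt : Prop := ∀ (L : Type) [Field L] [CharP L 2] [TopologicalSpace L] [IsTopologicalRing L], HH L →
  ∀ (m : ℕ) (c : ℕ → L) (x₀ η₀ : L), ∑ j ∈ range (m + 1), c j * x₀ ^ (2 ^ j) = η₀ → c 0 ≠ 0 →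
    ∀ U ∈ 𝓝 x₀, ∀ᶠ p in 𝓝 (c, η₀), ∃ x ∈ U, ∑ j ∈ range (m + 1), p.1 j * x ^ (2 ^ j) = p.2

/-- HCB (short): cube roots: HH for `X ^ 3 - b`, derivative `3 v ^ 2 = v ^ 2 ≠ 0`. -/
def HCB_stmt : Prop := ∀ (L : Type) [Field L] [CharP L 2] [TopologicalSpace L] [IsTopologicalRing L], HH L →
  ∀ v : L, v ≠ 0 → ∀ U ∈ 𝓝 v, ∀ᶠ b in 𝓝 (v ^ 3), ∃ x ∈ U, x ^ 3 = b

/-- OP0 (medium): perturbation, level 1. For `b'` near `b`: `v'` near `v` with `v'^3 = b' 1` (HCB), then `r'` near `r` with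
`v'^4 r' + v'^4 r'^4 = b' 0` (HAD with `c = (v'^4, 0, v'^4)`), then `y'` near `y` with `y' + y'^2 = r'^3 + θ` (HAD, `c = (1, 1)`). Combine
the eventualities by continuity (`v` is isolated from 0: `IsTopologicalDivisionRing` and T2: `{0}ᶜ` is open). -/
def OP0_stmt : Prop := ∀ (L : Type) [Field L] [CharP L 2] [TopologicalSpace L] [IsTopologicalDivisionRing L]
  [T2Space L], HH L → ∀ (θ : L) (b : ℕ → L) (v r y : L), v ≠ 0 → b 1 = v ^ 3 → b 0 = v ^ 4 * (r + r ^ 4) →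
    y ^ 2 + y = r ^ 3 + θ → ∀ᶠ b' in 𝓝 b, Cert L θ 1 b'

/-- DES (medium-long): the descending recursion is continuous. Given `b`, `d ≠ 0`, `b h ≠ 0`... and `c = Ud h b d`. For `(c', d')` near
`(c, d)` define `b' h = c' (h+1) / d'`, and downwards, for `i = h, ..., 2`,
`b' (i-1) = (c' i + b' i + b' i ^ 2 d'^(2^(h+1)+2^(h+1-i)) + b' (i+1) ^ 2 d'^(2^(h+1))) / d'^(2^(h+1-i))` (`b' (h+1) = 0`);
`b' 0` arbitrary, given. All are continuous functions of `(c', d')` at `(c, d)` with the values `b i`, and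
`c' i = Ud h b' d' i` for `2 ≤ i ≤ h + 1`. (Put `b' i = 0` for `i > h`.) -/
def DES_stmt : Prop := ∀ (L : Type) [Field L] [CharP L 2] [TopologicalSpace L] [IsTopologicalDivisionRing L]
  [T2Space L] (h : ℕ), 1 ≤ h → ∀ (b : ℕ → L) (d : L), d ≠ 0 →
    ∃ β : (ℕ → L) × L → ℕ → L, (∀ i, 1 ≤ i → i ≤ h → Filter.Tendsto (fun p => β p i) (𝓝 (Ud h b d, d)) (𝓝 (b i))) ∧
      ∀ᶠ p in 𝓝 (Ud h b d, d), ∀ b' : ℕ → L, (∀ i, 1 ≤ i → i ≤ h → b' i = β p i) →
        ∀ i, 2 ≤ i → i ≤ h + 1 → p.1 i = Ud h b' p.2 i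

/-- OPS (medium-long): perturbation, the step.
Proof: let `c = Ud h b d` (on `i ≤ h + 1`), `c'` near `c`. `PP (h+1) c d = 0` (IDP: `d^2 + d d = 0`) and the linear coefficient is `c (h+1) = b h * d ≠ 0`
(`b h ≠ 0` by CNE), so by ADD and HAD there is `d'` near `d` with `PP (h+1) c' d' = 0`. DES gives `b' i` near `b i` (`1 ≤ i ≤ h`) with
`c' i = Ud h b' d' i` for `i ≥ 2`. `b' 0` near `b 0` is a solution of `X + X^2 d'^(2^(h+2)) = c' 0 + b' 1 ^ 2 d'^(2^(h+1))` (HAD;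
`Ud h b' d' 0 = b' 0 + b' 0 ^ 2 d'^(2^(h+1)+2^(h+1)) + b' 1 ^ 2 d'^(2^(h+1))`), so `c' 0 = Ud h b' d' 0`. `E = c' 1 + Ud h b' d' 1` tends to 0, and by IDE
`E (E d'^(2^(h+2)) + d'^(2^h)) = 0`; the second factor tends to `d^(2^h) ≠ 0`, so `E = 0`. So `c' = Ud h b' d'` on `i ≤ h + 1`. `b'` is near `b` in the
coordinates `≤ h` (and may be taken `= b` beyond), so it is certified by hypothesis. `β'` near `β` with
`PP h b' β' = (d'^(2^(h+1)))⁻¹` (HAD, ADD; the linear coefficient `b' h ≠ 0`) and `y'` near `y` with `y'^2 + y' = fb h b' β'` (HAD). -/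
def OPS_stmt : Prop := ∀ (L : Type) [Field L] [CharP L 2] [TopologicalSpace L] [IsTopologicalDivisionRing L]
  [T2Space L], HH L → ∀ (θ : L) (h : ℕ) (b c : ℕ → L) (d β y : L), 1 ≤ h → Cert L θ h b → d ≠ 0 →
    PP h b β * d ^ (2 ^ (h + 1)) = 1 → y ^ 2 + y = fb h b β → (∀ i, i ≤ h + 1 → c i = Ud h b d i) →
    (∀ᶠ b' in 𝓝 b, Cert L θ h b') → ∀ᶠ c' in 𝓝 c, Cert L θ (h + 1) c'

/-- CNE (short): the top coordinate of a certified form is not 0 (`Ud h b d (h+1) = b h * d`). -/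
def CNE_stmt : Prop := ∀ (L : Type) [Field L] (θ : L) (h : ℕ) (b : ℕ → L), Cert L θ h b → b h ≠ 0

/-- OPN (short): certificates are stable under perturbation. Induction on the certificate (OP0, OPS). -/
def OPN_stmt : Prop := ∀ (L : Type) [Field L] [CharP L 2] [TopologicalSpace L] [IsTopologicalDivisionRing L]
  [T2Space L], HH L → ∀ (θ : L) (h : ℕ) (b : ℕ → L), Cert L θ h b → ∀ᶠ b' in 𝓝 b, Cert L θ h b'

/-! ## Building the spaces -/

/-- GNA (medium): the operation A, for one form. `F v = (v^2 (m + m^4), v^3, 0, ...)` tends to 0 for `v → 0`; for a form `a` of level `h ≥ 1` with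
certificate, `a + F v` has level `h` and a certificate for all small `v` (OPN, the map `a' ↦ bb h a'` is continuous; if `h = 1` the
top coordinate `a 1 + v^3` is not 0 for small `v`). -/
def GNA_stmt : Prop := ∀ (L : Type) [Field L] [CharP L 2] [TopologicalSpace L] [IsTopologicalDivisionRing L]
  [T2Space L], HH L → ∀ (θ m : L) (h : ℕ) (a : ℕ → L), 1 ≤ h → Lev h a → Cert L θ h (bb h a) →
    ∀ᶠ v in 𝓝 (0 : L), Lev h (fun i => a i + (if i = 0 then v ^ 2 * (m + m ^ 4) else if i = 1 then v ^ 3 else 0)) ∧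
      Cert L θ h (bb h (fun i => a i + (if i = 0 then v ^ 2 * (m + m ^ 4) else if i = 1 then v ^ 3 else 0)))

/-- GNB (short): the new form itself: level 1, `bb 1 = (v^4 (m^2 + m^8), v^3)`, `r = m^2`, `y = m^3`: `y^2 + y = m^6 + m^3 = r^3 + θ`. -/
def GNB_stmt : Prop := ∀ (L : Type) [Field L] [CharP L 2] (θ m v : L), θ = m ^ 3 → v ≠ 0 →
  Lev 1 (fun i => if i = 0 then v ^ 2 * (m + m ^ 4) else if i = 1 then v ^ 3 else 0 : ℕ → L) ∧
  Cert L θ 1 (bb 1 (fun i => if i = 0 then v ^ 2 * (m + m ^ 4) else if i = 1 then v ^ 3 else 0 : ℕ → L))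

/-- GNP (medium): the operation P, for one form. `e = 1 / d` small. `b = (bb h a)^2` is certified (CFR). `PP h b β = (d^(2^(h+1)))⁻¹ = e^(2^(h+1))` has
a small solution `β` (ADD, HAD at `x₀ = 0`, `η₀ = 0`; linear coefficient `b h ≠ 0`: CNE), and then `fb h b β` is small and
`y^2 + y = fb h b β` is solvable (HAD). So `Ud h b d` is certified, and it is `bb (h+1) (Ad a d)` on `i ≤ h + 1` (IDA, CNG). -/
def GNP_stmt : Prop := ∀ (L : Type) [Field L] [CharP L 2] [TopologicalSpace L] [IsTopologicalDivisionRing L]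
  [T2Space L], HH L → ∀ (θ : L) (h : ℕ) (a : ℕ → L), 1 ≤ h → Lev h a → Cert L θ h (bb h a) →
    ∀ᶠ e in 𝓝[≠] (0 : L), Cert L θ (h + 1) (bb (h + 1) (Ad a e⁻¹))

/-- GAS (medium): the operation A for a space: from `Good L θ r A lev` to `r + 1` with `GG' = 2 GG + 1`.
Proof: choose `v ≠ 0` small for all the finitely many `T` (GNA, GNB); `A' = Function.update A r F`, for `T ⊆ range (r+1)`: `lev' T = lev T` if `r ∉ T`,
`lev' {r} = 1`, `lev' T = lev (T.erase r)` if `r ∈ T ≠ {r}`. Sum over `T`: `GG' = GG + GG + 1`. -/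
def GAS_stmt : Prop := ∀ (L : Type) [Field L] [CharP L 2] [TopologicalSpace L] [IsTopologicalDivisionRing L]
  [T2Space L], HH L → (𝓝[≠] (0 : L)).NeBot → ∀ (θ m : L), θ = m ^ 3 → ∀ (r : ℕ) (A : ℕ → ℕ → L) (lev : Finset ℕ → ℕ),
    Good L θ r A lev → ∃ (A' : ℕ → ℕ → L) (lev' : Finset ℕ → ℕ), Good L θ (r + 1) A' lev' ∧
      GG (r + 1) lev' = 2 * GG r lev + 1

/-- GPS (medium): the operation P for a space: `GG' = 2 GG`. Proof: `A' j = Ad (A j) d`, `d⁻¹` small for all `T` (GNP), `lev' = lev + 1` (ADL). -/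
def GPS_stmt : Prop := ∀ (L : Type) [Field L] [CharP L 2] [TopologicalSpace L] [IsTopologicalDivisionRing L]
  [T2Space L], HH L → (𝓝[≠] (0 : L)).NeBot → ∀ (θ : L) (r : ℕ) (A : ℕ → ℕ → L) (lev : Finset ℕ → ℕ),
    Good L θ r A lev → ∃ (A' : ℕ → ℕ → L) (lev' : Finset ℕ → ℕ), Good L θ r A' lev' ∧
      GG r lev' = 2 * GG r lev

/-- GAL (short): every `g` occurs. Strong induction (`g = 0`: `r = 0`; `g = 2 g' + 1`: GAS; `g = 2 g'`, `g' ≥ 1`: GPS). -/
def GAL_stmt : Prop := ∀ (L : Type) [Field L] [CharP L 2] [TopologicalSpace L] [IsTopologicalDivisionRing L]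
  [T2Space L], HH L → (𝓝[≠] (0 : L)).NeBot → ∀ (θ m : L), θ = m ^ 3 → ∀ g : ℕ,
    ∃ (r : ℕ) (A : ℕ → ℕ → L) (lev : Finset ℕ → ℕ), Good L θ r A lev ∧ GG r lev = g

/-! ## The local field -/

/-- LHE (medium-long): Hensel's lemma in the field of Laurent series, with closeness expressed by coefficients.
`p = ∑ c_i X^i`, `x₀` a simple root; for every `N` there is `M` such that for all `c'` with `c'_i - c_i ∈ s^M F_2[[s]]` (`i ≤ m`) there is a root `x` of `p'` with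
`x - x₀ ∈ s^N F_2[[s]]`.
Proof: `p'(x₀ + T) = q_0 + q_1 T + ... + q_m T^m` with `q_0` small, `q_1` near `p'(x₀)' ≠ 0`, the others bounded. Put `T = s^e U`, `e ≥ N` large
(with `q_i s^(e (i-1)) / q_1 ∈ s F_2[[s]]` for `i ≥ 2`), then `M` large (with `q_0 / (q_1 s^e) ∈ s F_2[[s]]`): the equation becomes
`U + Q(U) = 0`, `Q` with coefficients in `s F_2[[s]]`, which has a solution in `s F_2[[s]]` by Hensel's lemma (`PowerSeries` is adically complete:
`IsAdicComplete`, `HenselianRing`), or by iteration `U ↦ -Q(U)`. -/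
def LHE_stmt : Prop := ∀ (m : ℕ) (c : ℕ → LS (ZMod 2)) (x₀ : LS (ZMod 2)),
  ∑ i ∈ range (m + 1), c i * x₀ ^ i = 0 →
    ∑ i ∈ range (m + 1), (i : LS (ZMod 2)) * c i * x₀ ^ (i - 1) ≠ 0 →
    ∀ N : ℤ, ∃ M : ℤ, ∀ c' : ℕ → LS (ZMod 2), (∀ i, i ≤ m → ∀ j < M, cf (c' i - c i) j = 0) →
      ∃ x : LS (ZMod 2), (∀ j < N, cf (x - x₀) j = 0) ∧ ∑ i ∈ range (m + 1), c' i * x ^ i = 0

/-- LTO (medium-long): the topology of `Lam`: neighbourhoods of 0 are the `{z : cf z j = 0 for j < N}`.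
Proof: on `LS (ZMod 2)` (which is `LaurentSeries (ZMod 2)` by definition) there is Mathlib's `Valued` topology (`LaurentSeries.valuation_le_iff_coeff_lt_eq_zero`);
take the induced topology on `Lam` (a subfield; topological division ring, T2). HH: LHE; the root is algebraic over `Lam` (the polynomial is not 0 because its derivative at the root is
not 0, for `c'` near `c`), hence in `Lam` (`Lam` is algebraically closed in `LS (ZMod 2)`). Not discrete: `s ^ N → 0`. -/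
def LTO_stmt : Prop := ∃ τ : TopologicalSpace Lam, @IsTopologicalDivisionRing Lam _ τ ∧ @T2Space Lam τ ∧
  @HH Lam _ τ ∧ (@nhdsWithin Lam τ 0 {0}ᶜ).NeBot

/-- LCH (short): characteristic 2. -/
def LCH_stmt : Prop := CharP Lam 2

/-- LFI (short): from the previous rows: for every `g` a good space over `Lam` with `θ = thL = (s⁻¹)^3`. -/
def LFI_stmt : Prop := ∀ g : ℕ, ∃ (r : ℕ) (A : ℕ → ℕ → Lam) (lev : Finset ℕ → ℕ),
  Good Lam thL r A lev ∧ GG r lev = g

end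

end MX
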