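import Pool.Agent.helper19.MX.SpecA
import Pool.Agent.helper87.AU.SpecQ2

/-!
# Project mx (MP_a875de_ag), block C: the specialisation theorem (Bombieri - Stepanov)

Rules: file `Pool/Agent/<seat>/MX/XX.lean`, `import Pool.Agent.helper19.MX.SpecC`, `namespace MX`,
`theorem XX (h : YY_stmt) ... : XX_stmt` (the hypotheses listed in the lock note, in this order; hypotheses `QV1_stmt` etc. are
the proved statements of project au, `Pool/Agent/helper87/AU/SpecQ1.lean`, `SpecQ2.lean`; API of places in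
`GDefs.lean`, action of automorphisms on places in `GDefs2.lean`). Auxiliary lemmas prefixed `XX_`. No double quotes, no `convert`,
no `congr!`. Notes: `/team-store/MX_NOTES.md`.
-/

set_option linter.unusedVariables false

namespace MX

open Pool.Agent.helper53.AU AN
open scoped Classical Topology IntermediateField
open Finset (range powerset Icc)

noncomputable section

/-- the algebraic closure of the field with two elements -/
abbrev kk : Type := AlgebraicClosure (ZMod 2)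

/-- an algebraic closure of the field of Laurent series over `kk` -/
abbrev Om : Type := AlgebraicClosure (LS kk)

/-- `Lam ⊆ F_2((s)) → kk((s)) → Om` -/
def iO : Lam →+* Om :=
  (algebraMap (LS kk) Om).comp ((mp (algebraMap (ZMod 2) kk)).comp Lamf.subtype)

/-! ## The automorphism -/

/-- SEP (medium-long): the elements of `F_2((s))` which are algebraic over `F_2(s)` are separable.
Proof: let `z` be such an element with an inseparable minimal polynomial over `F_2(s)`: `ν(X^2)`, `ν = ∑ c_i X^i ≠ 0`; clear denominators,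
`c_i ∈ F_2[s]`, `c_i = a_i^2 + s b_i^2` with `a_i, b_i ∈ F_2[s]`. Then `(∑ a_i z^i)^2 + s (∑ b_i z^i)^2 = 0`. `s` is not a square in `F_2((s))` (orders), so both
sums are 0, a relation of smaller degree, not trivial. Transport by `iO` (it maps `F_2(s)` onto `Subfield.closure {iO sL}`: the image of a
subfield generated by `s`). -/
def SEP_stmt : Prop := ∀ z : Lam, IsSeparable (Subfield.closure ({iO sL} : Set Om)) (iO z)

/-- LA1 (short-medium): the automorphism of `kk((s))` which takes `4^n`-th roots of the coefficients: `mp` of the inverse of the Frobenius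
(`iterateFrobeniusEquiv kk 2 (2 * n)`); it fixes the series with coefficients in `F_2`. -/
def LA1_stmt : Prop := ∀ n : ℕ, ∃ α : LS kk ≃+* LS kk,
  (∀ c : kk, ∃ c' : kk, α (LS.C c) = LS.C c' ∧ c' ^ (4 ^ n) = c) ∧
  ∀ z : LS (ZMod 2), α (mp (algebraMap (ZMod 2) kk) z) = mp (algebraMap (ZMod 2) kk) z

/-- LA2 (short): `X^2 + X + s^(-3)` has no root in `kk((s))`: the order of `z^2 + z` is `2 ord z` if `ord z < 0`, and `≥ 0` otherwise. -/
def LA2_stmt : Prop := ∀ z : LS kk, z ^ 2 + z ≠ mono (-3) 1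

/-- LEX (medium): extension to `Om`. `ys` a root of `X^2 + X + s^(-3)` in `Om`. By LA2 this polynomial is irreducible over `kk((s))`, so there is an
automorphism `ρ` of `Om` over `kk((s))` with `ρ ys = ys + 1`. The automorphism of LA1 extends to a ring automorphism `α` of `Om`
(`IsAlgClosure.equivOfEquiv` or `IsAlgClosed.lift`), `α ys` is a root of `X^2 + X + α(s^(-3)) = X^2 + X + s^(-3)`, so `α ys ∈ {ys, ys + 1}`; compose with `ρ` if necessary. -/
def LEX_stmt : Prop := ∃ ys : Om, ys ^ 2 + ys = iO thL ∧ ∀ (n : ℕ) (e : Om), (e = 0 ∨ e = 1) →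
  ∃ α : Om ≃+* Om, (∀ c : kk, ∃ c' : kk, α (algebraMap kk Om c) = algebraMap kk Om c' ∧ c' ^ (4 ^ n) = c) ∧
    (∀ z : Lam, α (iO z) = iO z) ∧ α ys = ys + e

/-- GCL (medium-long): the Galois closure.
Proof: `F₀ = Subfield.closure {s}`; `p` = product of the minimal polynomials over `F₀` of the elements of `Z`, `R` = set of its roots in `Ω`
(separable polynomials), `F = k(s)(R)` (an intermediate field of `Ω / k`). `F / k(s)` is a splitting field of a product of separable polynomials: Galois, finite. `IsFF`: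
`x = s`. An `α` as in the last part fixes `F₀` pointwise (its fixed points are a subfield containing `s`), so it permutes `R`, and it maps `k` into `k` and `s` to `s`, so
`α F ⊆ F`. -/
def GCL_stmt : Prop := ∀ (k Ω : Type) [Field k] [Field Ω] [Algebra k Ω] [IsAlgClosed Ω] (s : Ω),
  Transcendental k s → ∀ Z : Finset Ω, (∀ z ∈ Z, IsSeparable (Subfield.closure ({s} : Set Ω)) z) →
    ∃ (F : IntermediateField k Ω) (hs : s ∈ F), (Z : Set Ω) ⊆ F ∧ IsFF k F ∧
      IsGalois (IntermediateField.adjoin k ({(⟨s, hs⟩ : F)} : Set F)) F ∧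
      ∀ α : Ω ≃+* Ω, α s = s → (∀ c : k, ∃ c' : k, α (algebraMap k Ω c) = algebraMap k Ω c') →
        ∀ z ∈ F, α z ∈ F

/-- FBR (medium): the function field. Proof: GCL for `k = kk`, `Ω = Om`, `s = iO sL` (transcendental: a polynomial in the Laurent series `s` over `kk`
is 0 only if it is the zero polynomial), `Z = iO(E) ∪ {ys}` (SEP; `ys` is a root of the separable polynomial `X^2 + X + s^(-3)` over `F_2(s)`);
`N = {z : iO z ∈ F}`; the automorphisms of LEX and their inverses preserve `F`. -/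
def FBR_stmt : Prop := ∀ E : Finset Lam, ∃ (F : Type) (_ : Field F) (_ : Algebra kk F) (s ys : F)
  (N : Subfield Lam) (ι : N →+* F) (hs : sL ∈ N), (E : Set Lam) ⊆ N ∧ ι ⟨sL, hs⟩ = s ∧
    ys ^ 2 + ys = (s⁻¹) ^ 3 ∧ IsFF kk F ∧ Transcendental kk s ∧ IsGalois kk⟮s⟯ F ∧
    ∀ (n : ℕ) (e : F), (e = 0 ∨ e = 1) → ∃ α : F ≃+* F,
      (∀ c : kk, ∃ c' : kk, α (algebraMap kk F c) = algebraMap kk F c' ∧ c' ^ (4 ^ n) = c) ∧ α s = s ∧
      (∀ z : N, α (ι z) = ι z) ∧ α ys = ys + e

/-! ## The bound of Bombieri and Stepanov -/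

/-- BSE (medium): a family in `L(m P)` with distinct pole orders, as many as the dimension.
Proof: the sets `L(m P) ⊇ L((m-1) P) ⊇ ... ⊇ L(0) ⊇ L(-P) = 0`: each step has dimension `≤ 1` (QV1: if `f, f'` have the same order at `P` then `f - c f'` has larger order for
some `c`), so there are at least `l(m P)` orders; choose one function for each of `l(m P)` orders. (Or: a linearly independent family of size `n` with orders bounded above can be
changed into one with distinct orders.) -/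
def BSE_stmt : Prop := ∀ (k F : Type) [Field k] [IsAlgClosed k] [Field F] [Algebra k F], IsFF k F →
  ∀ (P : Place k F) (m : ℕ), ∃ t : Fin (ell (Finsupp.single P (m : ℤ))) → F,
    (∀ j, t j ∈ RR (Finsupp.single P (m : ℤ)) ∧ t j ≠ 0) ∧ Function.Injective (fun j => P.ord (t j))

/-- SLK (medium): kernel of semilinear maps. Proof: the image of a basis of `V` spans the image `Θ(V)`, which is a subspace (`σ` is onto). If `Θ` were injective the image of a
basis would be independent: `∑ c_i Θ(v_i) = Θ(∑ σ⁻¹(c_i) v_i)`. (Or `Module.compHom`: give `W` the structure twisted by `σ`.) -/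
def SLK_stmt : Prop := ∀ (k V W : Type) [Field k] [AddCommGroup V] [Module k V] [AddCommGroup W] [Module k W]
  [FiniteDimensional k V] [FiniteDimensional k W] (σ : k ≃+* k) (Θ : V →+ W),
  (∀ (c : k) (v : V), Θ (c • v) = σ c • Θ v) → Module.finrank k W < Module.finrank k V →
    ∃ v : V, v ≠ 0 ∧ Θ v = 0

/-- TPL (short): transport of places: `P'.ord f = P.ord (β⁻¹ f)`. -/
def TPL_stmt : Prop := ∀ (k F : Type) [Field k] [Field F] [Algebra k F] (β : F ≃+* F),
  (∀ c : k, ∃ c' : k, β.symm (algebraMap k F c) = algebraMap k F c') →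
    ∀ P : Place k F, ∃ P' : Place k F, ∀ f : F, P'.ord (β f) = P.ord f

/-- ZER (short): zeros of a function with one pole. Proof: `∑ P.ord G = 0` (QV5; finite support QV4), all orders outside `P₀` are `≥ 0`. -/
def ZER_stmt : Prop := ∀ (k F : Type) [Field k] [IsAlgClosed k] [Field F] [Algebra k F], IsFF k F →
  ∀ (P₀ : Place k F) (G : F) (M : ℤ) (S : Finset (Place k F)), G ∈ Reg P₀ → G ≠ 0 → -M ≤ P₀.ord G → P₀ ∉ S →
    (∀ P ∈ S, P.Ge 1 G) → (S.card : ℤ) ≤ M

/-- BSN (medium): the auxiliary function.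
Proof: `t_j ∈ L((l + 2g) P)`, `j < a`, `a = l((l+2g) P) ≥ l + g + 1` (QR3), with distinct orders (BSE). `P_a`, `P_t` (TPL, for `α` and `τ`): `ord_{P_a}(α f) = ord_P(f)`,
`ord_{P_t}(τ f) = ord_P(f)`. The map `(s_j) ↦ ∑ s_j^l τ(t_j)` from `L((l-1) P_a)^a` to `L(l (l-1) P_a + (l + 2g) P_t)` is additive, semilinear for `c ↦ c^l` (a power of the Frobenius, an
automorphism of `k`). Dimensions: the source has dimension `≥ (l + g + 1) (l - g)` (QR3), the target `≤ l (l - 1) + l + 2 g + 1 = l^2 + 2 g + 1` (QR1: `l(D) ≤ deg D + 1` for `D ≥ 0`), and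
`(l + g + 1)(l - g) = l^2 + l - g^2 - g > l^2 + 2 g + 1`. SLK gives `(s_j) ≠ 0` in the kernel. `G = ∑ s_j α(t_j)^l`. Poles only at `P_a`; a nonzero `s_j` has order between `-(l-1)` and `0` at
`P_a` (it has no other pole: QV5), so the nonzero terms have the orders `l ord_P(t_j) + ord(s_j)`, in the disjoint intervals `[l o_j - (l - 1), l o_j]`, `o_j = ord_P (t_j)` distinct; so `G ≠ 0` and
`ord_{P_a} G ≥ -(l (l + 2g) + l - 1)`. (`hα` makes TPL applicable to `α`: `α.symm c = c^(l^2)`; `τ` is `k`-linear.) -/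
def BSN_stmt : Prop := ∀ (p : ℕ) [Fact p.Prime] (k F : Type) [Field k] [IsAlgClosed k] [CharP k p] [Field F] [Algebra k F],
  IsFF k F → ∀ g : ℕ, IsGenus k F g → ∀ n l : ℕ, l = p ^ n → g ^ 2 + 3 * g + 1 < l →
  ∀ (α : F ≃+* F), (∀ c : k, ∃ c' : k, α (algebraMap k F c) = algebraMap k F c' ∧ c' ^ (l ^ 2) = c) →
  ∀ (τ : F ≃ₐ[k] F), ∃ (Pa Pt : Place k F) (a : ℕ) (s t : Fin a → F),
    (∀ j, s j ∈ Reg Pa) ∧ (∀ j, τ (t j) ∈ Reg Pt) ∧ ∑ j, s j ^ l * τ (t j) = 0 ∧
    ∑ j, s j * α (t j) ^ l ∈ Reg Pa ∧ ∑ j, s j * α (t j) ^ l ≠ 0 ∧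
    -((l : ℤ) * (l + 2 * g) + l - 1) ≤ Pa.ord (∑ j, s j * α (t j) ^ l)

/-- BSB (short-medium): the bound.
Proof: BSN, `G = ∑ s_j α(t_j)^l`. Let `y ∈ S`, `y ≠ Pa, Pt`, `c_j` the value of `τ(t_j)` at `y` (QV1). `ord_y (τ(t_j - c_j)) ≥ 1` (`τ c_j = c_j`), so `ord_y (α(t_j - c_j)) ≥ 1` (membership of `y` in `S`),
`α(t_j) - c_j'` with `c_j'^(l^2) = c_j`; raise to the power `l^2` (additive): `α(t_j)^(l^2) - c_j` vanishes at `y`. So `G^l = ∑ s_j^l α(t_j)^(l^2)` is congruent to `∑ s_j^l τ(t_j) = 0` at `y`: `G` vanishes at `y`.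
ZER: `#(S \ {Pa, Pt}) ≤ l (l + 2g) + l - 1`. -/
def BSB_stmt : Prop := ∀ (p : ℕ) [Fact p.Prime] (k F : Type) [Field k] [IsAlgClosed k] [CharP k p] [Field F] [Algebra k F],
  IsFF k F → ∀ g : ℕ, IsGenus k F g → ∀ n l : ℕ, l = p ^ n → g ^ 2 + 3 * g + 1 < l →
  ∀ (α : F ≃+* F), (∀ c : k, ∃ c' : k, α (algebraMap k F c) = algebraMap k F c' ∧ c' ^ (l ^ 2) = c) →
  ∀ (τ : F ≃ₐ[k] F) (S : Finset (Place k F)), (∀ y ∈ S, ∀ f : F, y.ord (α f) = y.ord (τ f)) →
    (S.card : ℤ) ≤ (l : ℤ) ^ 2 + (2 * g + 1) * l + 1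

/-! ## Counting -/

/-- CN1 (medium): the fibres of `s`. Proof: `H` = the automorphisms over `k(s)` (as a subgroup of `F ≃ₐ[k] F`), finite; its fixed field is `k(s)` (Galois). Existence of a place
over `c`: QZ3 for `s - c`. Two places `P`, `P'` over `c` lie over the same place of `fixedField H = k(s)` (there is only one place of `k(s)` with `ord (s - c) > 0`: QZ3 in the function field `fixedField H`
(QE1), the degree of `s - c` is 1); QE2, QE4. -/
def CN1_stmt : Prop := ∀ (k F : Type) [Field k] [IsAlgClosed k] [Field F] [Algebra k F], IsFF k F →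
  ∀ s : F, Transcendental k s → IsGalois k⟮s⟯ F →
    {τ : F ≃ₐ[k] F | τ s = s}.Finite ∧ ∀ c : k, (∃ P : Place k F, P.Ge 1 (s - algebraMap k F c)) ∧
      ∀ P P' : Place k F, P.Ge 1 (s - algebraMap k F c) → P'.Ge 1 (s - algebraMap k F c) →
        ∃ τ : F ≃ₐ[k] F, τ s = s ∧ P' = τ • P

/-- CN2 (short): free orbits. Proof: every `τ ≠ 1` with `τ s = s` fixes finitely many places (QF11), there are finitely many `τ` (CN1), and every place lies over at most one `c` (if
`P.Ge 1 (s - c)` and `P.Ge 1 (s - c')` then `P.Ge 1 (c' - c)`, so `c = c'`). -/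
def CN2_stmt : Prop := ∀ (k F : Type) [Field k] [IsAlgClosed k] [Field F] [Algebra k F], IsFF k F →
  ∀ s : F, Transcendental k s → IsGalois k⟮s⟯ F →
    ∃ B : Finset k, ∀ c ∉ B, ∀ P : Place k F, P.Ge 1 (s - algebraMap k F c) →
      ∀ τ : F ≃ₐ[k] F, τ s = s → τ • P = P → τ = 1

/-- RTS (short): `X^(4^n) - X` has `4^n` roots in an algebraically closed field of characteristic 2 (separable polynomial); we need a finite set of them. -/
def RTS_stmt : Prop := ∀ (k : Type) [Field k] [IsAlgClosed k] [CharP k 2] (n : ℕ), 1 ≤ n →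
  ∃ R : Finset k, R.card = 4 ^ n ∧ ∀ c : k, c ∈ R ↔ c ^ (4 ^ n) = c

/-- CNT (medium-long): a place of class 1.
Proof: `H = {τ : τ s = s}`, `m = #H`, `g` the genus (QR2), `B₁` from CN2. Let `l = 2^n` be large. For `c ∈ R \ B₁` (RTS) the places over `c` are one free orbit (CN1, CN2): exactly `m` places.
`α c = c` (the element `c'` with `α c = c'`, `c'^(4^n) = c = c^(4^n)`, so `c' = c`). For `y` over `c` the place `f ↦ y.ord (α f)` (TPL for `α⁻¹`) is again over `c`, so it is `τ • y` for some `τ ∈ H`, i.e.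
`y.ord (α f) = (τ • y).ord f = y.ord (τ⁻¹ f)`. So the `m (4^n - #B₁)` places over `R \ B₁` are distributed over the `m` classes `S_τ = {y : ∀ f, y.ord (α f) = y.ord (τ f)}`; by BSB (`p = 2`, for finite
subsets) the classes `τ ≠ 1` contain at most `(m - 1) (l^2 + (2g+1) l + 1)` of them, so class 1 contains at least `m (l^2 - #B₁) - (m-1)(l^2 + (2g+1) l + 1) ≥ l^2 - m (#B₁ + (2 g + 1) l + 1)`, which is larger than
`#B` for large `n`. -/
def CNT_stmt : Prop := ∀ (k F : Type) [Field k] [IsAlgClosed k] [CharP k 2] [Field F] [Algebra k F], IsFF k F →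
  ∀ s : F, Transcendental k s → IsGalois k⟮s⟯ F → ∀ B : Finset (Place k F), ∃ n₀ : ℕ, ∀ n : ℕ, n₀ ≤ n →
    ∀ α : F ≃+* F, (∀ c : k, ∃ c' : k, α (algebraMap k F c) = algebraMap k F c' ∧ c' ^ (4 ^ n) = c) →
      α s = s → ∃ P : Place k F, P ∉ B ∧ ∀ f : F, P.ord (α f) = P.ord f

/-! ## Values -/

/-- EV1 (medium): values at an invariant place. Proof: QV1 (the value is unique); the ring axioms. If `α f = f + e`, `f - c ∈ m_P`, then `α (f - c) = f + e - c' ∈ m_P` with `c'^q = c`, so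
`c = c' + e` (`e ∈ {0, 1}`), `c' = c + e` and `c^q = c'^q + e^q = c + e`; so `c^q = c + e`. -/
def EV1_stmt : Prop := ∀ (k F : Type) [Field k] [IsAlgClosed k] [CharP k 2] [Field F] [Algebra k F], IsFF k F →
  ∀ P : Place k F, ∃ ρ : F → k, (∀ f : F, P.Ge 0 f → P.Ge 1 (f - algebraMap k F (ρ f))) ∧ ρ 1 = 1 ∧ ρ 0 = 0 ∧
    (∀ f g : F, P.Ge 0 f → P.Ge 0 g → ρ (f + g) = ρ f + ρ g ∧ ρ (f * g) = ρ f * ρ g) ∧
    ∀ (n : ℕ) (α : F ≃+* F), (∀ c : k, ∃ c' : k, α (algebraMap k F c) = algebraMap k F c' ∧ c' ^ (4 ^ n) = c) →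
      (∀ f : F, P.ord (α f) = P.ord f) → ∀ (f : F) (e : k), P.Ge 0 f → (e = 0 ∨ e = 1) →
        α f = f + algebraMap k F e → ρ f ^ (4 ^ n) = ρ f + e

/-- EV2 (short-medium): the field with `4^n` elements inside `kk` (`IsAlgClosed.lift` for `K` over its prime field, `ZMod 2`; the image has
`4^n` elements, all roots of `X^(4^n) - X`, which has at most `4^n` roots). -/
def EV2_stmt : Prop := ∀ (K : Type) [Field K] [Fintype K] (n : ℕ), Fintype.card K = 4 ^ n →
  ∃ j : K →+* kk, ∀ c : kk, c ^ (4 ^ n) = c → ∃ a : K, j a = c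

/-- EV3 (short-medium): the sign. If `y^(4^n) = y` then `y = j a`, `a^2 + a = z`. If `y^(4^n) = y + 1` then `z` is not of the form `a^2 + a`: otherwise `y ∈ {j a, j a + 1}` and `y^(4^n) = y`. -/
def EV3_stmt : Prop := ∀ (K : Type) [Field K] [Fintype K] (n : ℕ), Fintype.card K = 4 ^ n →
  ∀ j : K →+* kk, (∀ c : kk, c ^ (4 ^ n) = c → ∃ a : K, j a = c) → ∀ (z : K) (y : kk), y ^ 2 + y = j z →
    (y ^ (4 ^ n) = y → ps z = 1) ∧ (y ^ (4 ^ n) = y + 1 → ps z = -1)

/-- ENG (medium-long): THE SPECIALISATION THEOREM.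
Proof: FBR for `E`; `B` = the finite set of the places where `ι z` (`z ∈ E`), `s⁻¹` or `ys` has a pole (QV4); CNT gives `n₀`. For `n ≥ n₀` and the sign `e` take `α` with `α ys = ys + e'`, `e' = 0` for `e = 1`, `e' = 1` for
`e = -1`, and `P` from CNT, `ρ` from EV1. `A = {z ∈ N : P.Ge 0 (ι z)}`, `φ z = j⁻¹(ρ(ι z))` (`ρ(ι z)^(4^n) = ρ(ι z)` by EV1, `α (ι z) = ι z`; EV2, `j` injective). `thL = (sL⁻¹)^3`, `ι thL = (s⁻¹)^3`,
`y = ρ(ys)`: `y^2 + y = ρ((s⁻¹)^3) = j (φ thL)`, `y^(4^n) = y + e'`: EV3. -/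
def ENG_stmt : Prop := ∀ E : Finset Lam, ∃ n₀ : ℕ, ∀ n : ℕ, n₀ ≤ n → ∀ (K : Type) [Field K] [Fintype K],
  Fintype.card K = 4 ^ n → ∀ e : ℤ, (e = 1 ∨ e = -1) →
    ∃ (A : Subring Lam) (φ : A →+* K) (hθ : thL ∈ A), (E : Set Lam) ⊆ A ∧ ps (φ ⟨thL, hθ⟩) = e

end

end MX
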