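import Pool.Agent.helper19.MX.SpecC

/-!
# Project mx (MP_a875de_ag), block D: the curves

Rules: file `Pool/Agent/<seat>/MX/XX.lean`, `import Pool.Agent.helper19.MX.SpecD`, `namespace MX`,
`theorem XX (h : YY_stmt) ... : XX_stmt` (the hypotheses listed in the lock note, in this order; `QV1_stmt` etc. are the proved statements
of project au). Auxiliary lemmas prefixed `XX_`. No double quotes, no `convert`, no `congr!`.

`AS k F x r y f` (file Defs): `F = k(x, y 0, ..., y (r-1))`, `y j ^ 2 + y j = f j (x)`, all nonempty partial sums of the `f j` of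
odd degree.
-/

set_option linter.unusedVariables false

namespace MX

open Pool.Agent.helper53.AU AN
open scoped Classical Topology IntermediateField
open Finset (range powerset Icc)

noncomputable section

/-! ## The tower: quadratic steps -/

/-- RST (short-medium): restriction of a place to a subfield. Proof: the values `Q.ord a`, `a ∈ E \ 0`, form a nonzero subgroup `e ℤ`, `e > 0`. -/
def RST_stmt : Prop := ∀ (k E F : Type) [Field k] [Field E] [Field F] [Algebra k E] [Algebra k F] [Algebra E F]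
  [IsScalarTower k E F] (Q : Place k F), (∃ a : E, a ≠ 0 ∧ Q.ord (algebraMap E F a) ≠ 0) →
    ∃ (P : Place k E) (e : ℕ), 0 < e ∧ ∀ a : E, Q.ord (algebraMap E F a) = e * P.ord a

/-- QEL (short-medium): elements of a quadratic extension. `F = E(y)`, `y^2 + y = φ ∈ E`, `φ` not of the form `w^2 + w`: then `X^2 + X + φ` is
irreducible, `1, y` is a basis. -/
def QEL_stmt : Prop := ∀ (E F : Type) [Field E] [Field F] [CharP E 2] [Algebra E F] (y : F) (φ : E),
  y ^ 2 + y = algebraMap E F φ → IntermediateField.adjoin E ({y} : Set F) = ⊤ → (∀ w : E, w ^ 2 + w ≠ φ) →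
    Module.finrank E F = 2 ∧
    (∀ z : F, ∃ a b : E, z = algebraMap E F a + algebraMap E F b * y) ∧
    ∀ a b : E, algebraMap E F a + algebraMap E F b * y = 0 → a = 0 ∧ b = 0

/-- QU1 (medium-long): the place above, for an odd pole.
Proof: `φ` has the odd order `-m < 0` at `P`, so it is not `w^2 + w` (order `2 ord w`, or `≥ 0`); QEL. For `z = a + b y ≠ 0` define
`Q.ord z = P.ord (N z)`, `N z = a^2 + a b + b^2 φ` (the norm, multiplicative: `(a + b y)(a + b (y + 1))`). Claim: `P.ord (N z) = min (2 ord a) (2 ord b - m)` (for `a, b ≠ 0`;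
if `b = 0` it is `2 ord a`, if `a = 0` it is `2 ord b - m`): the two numbers are different (parity), and `ord (a b) = ord a + ord b` is strictly larger than the
minimum: if `ord b < ord a` then `2 ord b - m < 2 ord b < ord a + ord b`; if `ord b ≥ ord a` then `ord a + ord b ≥ 2 ord a`, with equality only for `ord a = ord b`, and then `2 ord b - m < 2 ord a`. The
minimum formula gives the ultrametric inequality. Uniformiser: `t^((m+1)/2) y` (`t` a uniformiser of `P`) has order 1. Degree one: if `Q.ord z ≥ 0` then `ord a ≥ 0` and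
`2 ord b - m ≥ 1`, so the residue of `z` is that of `a`. -/
def QU1_stmt : Prop := ∀ (k E F : Type) [Field k] [Field E] [Field F] [CharP E 2] [Algebra k E] [Algebra k F] [Algebra E F]
  [IsScalarTower k E F] (y : F) (φ : E) (P : Place k E) (m : ℕ),
  y ^ 2 + y = algebraMap E F φ → IntermediateField.adjoin E ({y} : Set F) = ⊤ → DegOne P → Odd m → φ ≠ 0 →
    P.ord φ = -(m : ℤ) →
    ∃ Q : Place k F, DegOne Q ∧ (∀ a : E, Q.ord (algebraMap E F a) = 2 * P.ord a) ∧
      (∀ b : E, b ≠ 0 → Q.ord (algebraMap E F b * y) = 2 * P.ord b - m) ∧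
      ∀ a b : E, a ≠ 0 → b ≠ 0 →
        Q.ord (algebraMap E F a + algebraMap E F b * y) = min (2 * P.ord a) (2 * P.ord b - m)

/-- QU2 (medium): uniqueness. `Q'` a place of `F` with `Q'.ord a = e P.ord a` on `E`. Then `Q'.ord φ = -e m < 0`, so
`2 Q'.ord y = - e m` (otherwise `y^2 + y` has another order), `e = 2 e'`; `Q'.ord (a + b y) = e' min (2 ord a) (2 ord b - m) = e' Q.ord (a + b y)` (different orders), and both are
normalised, so `e' = 1`. -/
def QU2_stmt : Prop := ∀ (k E F : Type) [Field k] [Field E] [Field F] [CharP E 2] [Algebra k E] [Algebra k F] [Algebra E F]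
  [IsScalarTower k E F] (y : F) (φ : E) (P : Place k E) (m : ℕ) (Q Q' : Place k F) (e : ℕ),
  y ^ 2 + y = algebraMap E F φ → IntermediateField.adjoin E ({y} : Set F) = ⊤ → Odd m → φ ≠ 0 → P.ord φ = -(m : ℤ) →
    (∀ a : E, Q.ord (algebraMap E F a) = 2 * P.ord a) → (∀ b : E, b ≠ 0 → Q.ord (algebraMap E F b * y) = 2 * P.ord b - m) →
    0 < e → (∀ a : E, Q'.ord (algebraMap E F a) = e * P.ord a) → Q' = Q

/-- RED (medium): reduction of poles. `k` perfect. Strong induction on the pole order: if `P.ord φ = -2 n < 0`, `t` a uniformiser, `c` the residue of `φ t^(2 n)`, `c = c'^2`, then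
`φ + (c' t^(-n))^2 + c' t^(-n)` has a smaller pole. -/
def RED_stmt : Prop := ∀ (k E : Type) [Field k] [Field E] [CharP k 2] [CharP E 2] [Algebra k E], (∀ c : k, ∃ c' : k, c' ^ 2 = c) →
  ∀ P : Place k E, DegOne P → ∀ φ : E, ∃ u : E, P.Ge 0 (φ + u ^ 2 + u) ∨
    (φ + u ^ 2 + u ≠ 0 ∧ ∃ m : ℕ, Odd m ∧ P.ord (φ + u ^ 2 + u) = -(m : ℤ))

/-- RTR (medium): transfer of regularity. In the situation of QU1 let `z ∈ E`, `u = a + b y ∈ F` with `z + u^2 + u` regular at `Q`:
`z + u^2 + u = (z + a^2 + a + b^2 φ) + (b^2 + b) y`, the orders of the two parts are even and odd, so both are regular: `2 ord (b^2 + b) ≥ m > 0`, so `b = ε + b'`, `ε ∈ {0, 1}`,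
`ord b' = ord (b^2 + b)` (or `b' = 0`), `2 ord b' ≥ m`, `b'^2 φ` is regular at `P`; so `z + a^2 + a + ε φ` is regular at `P`. -/
def RTR_stmt : Prop := ∀ (k E F : Type) [Field k] [Field E] [Field F] [CharP E 2] [Algebra k E] [Algebra k F] [Algebra E F]
  [IsScalarTower k E F] (y : F) (φ : E) (P : Place k E) (m : ℕ) (Q : Place k F),
  y ^ 2 + y = algebraMap E F φ → IntermediateField.adjoin E ({y} : Set F) = ⊤ → Odd m → φ ≠ 0 → P.ord φ = -(m : ℤ) →
    (∀ a : E, Q.ord (algebraMap E F a) = 2 * P.ord a) → (∀ b : E, b ≠ 0 → Q.ord (algebraMap E F b * y) = 2 * P.ord b - m) →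
    ∀ (z : E) (u : F), Q.Ge 0 (algebraMap E F z + u ^ 2 + u) →
      ∃ (ε a : E), (ε = 0 ∨ ε = 1) ∧ P.Ge 0 (z + a ^ 2 + a + ε * φ)

/-- LIN (medium): the line. `F = k(x)`: the place at infinity (`ord = - degree`), unique with `ord x < 0`; polynomials of odd degree are not congruent to `u^2 + u` modulo regular functions.
Proof: `F` is isomorphic to `RatFunc k`; `ord (p / q) = deg q - deg p`. Uniqueness: a place with `P.ord x = -e < 0` has `P.ord p(x) = - e deg p`, so `e = 1`. Last part: `u^2 + u` has the even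
order `2 ord u` if `ord u < 0`, and is regular otherwise. -/
def LIN_stmt : Prop := ∀ (k F : Type) [Field k] [Field F] [CharP k 2] [Algebra k F] (x : F), Transcendental k x →
  IntermediateField.adjoin k ({x} : Set F) = ⊤ →
    ∃ P : Place k F, DegOne P ∧ P.ord x = -1 ∧ (∀ P' : Place k F, P'.ord x < 0 → P' = P) ∧
      ∀ (φ : Polynomial k) (u : F), Odd φ.natDegree → ¬ P.Ge 0 (Polynomial.aeval x φ + u ^ 2 + u)

/-- SBF (short-medium): the subfield. `E = k(x, y 0, ..., y (r-1)) ⊆ F = E(y r)`, with the structure `AS` (subtypes). -/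
def SBF_stmt : Prop := ∀ (k F : Type) [Field k] [Field F] [Algebra k F] (x : F) (r : ℕ) (y : ℕ → F)
  (f : ℕ → Polynomial k), AS k F x (r + 1) y f →
    ∃ (E : IntermediateField k F) (x' : E) (y' : ℕ → E), (x' : F) = x ∧ (∀ j, j < r → (y' j : F) = y j) ∧
      E = IntermediateField.adjoin k ({x} ∪ y '' {j | j < r}) ∧ AS k E x' r y' f ∧
      IntermediateField.adjoin E ({y r} : Set F) = ⊤

/-- TOW (medium-long): THE TOWER. `k` perfect of characteristic 2.
Proof: induction on `r`. `r = 0`: LIN (`f*` of odd degree: `T = ∅`). Step: `E` as in SBF with its place `P` at infinity. RED for `φ₀ = f r (x) ∈ E`: there is `u` with `φ = φ₀ + u^2 + u` regular at `P` or of odd pole order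
`m`; the first is impossible by part (iii) for `E` and `f* = f r`. `y' = y r + u`, `F = E(y')`, `y'^2 + y' = φ`. QEL (degree 2; `φ` is not `w^2 + w`): (i). QU1, QU2, RST: (ii) (a place `Q'` with `Q'.ord x < 0` restricts to a place of `E` with `ord x < 0`, so to `P`).
(iii): if `f*(x) + u'^2 + u'` is regular at `Q` then by RTR `f*(x) + a^2 + a + ε φ` is regular at `P`, that is `(f* + ε f_r)(x) + (a + ε u)^2 + (a + ε u)`, contradiction to (iii) for `E` and `f* + ε f_r`. -/
def TOW_stmt : Prop := ∀ (k F : Type) [Field k] [Field F] [CharP k 2] [Algebra k F], (∀ c : k, ∃ c' : k, c' ^ 2 = c) →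
  ∀ (x : F) (r : ℕ) (y : ℕ → F) (f : ℕ → Polynomial k), AS k F x r y f →
    Module.finrank k⟮x⟯ F = 2 ^ r ∧
    ∃ P : Place k F, DegOne P ∧ P.ord x = -(2 ^ r : ℤ) ∧ (∀ P' : Place k F, P'.ord x < 0 → P' = P) ∧
      ∀ (φ : Polynomial k) (u : F), (∀ T ⊆ range r, Odd (φ + ∑ j ∈ T, f j).natDegree) →
        ¬ P.Ge 0 (Polynomial.aeval x φ + u ^ 2 + u)

/-- BAS (medium): the basis. `F` is spanned over `k(x)` by the `2^r` products `∏_{j ∈ I} y j` (the span is closed under multiplication because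
`y j ^ 2 = y j + f j (x)`, it is a finite-dimensional domain, a field), and the dimension is `2^r` (TOW), so they are a basis. -/
def BAS_stmt : Prop := ∀ (k F : Type) [Field k] [Field F] [CharP k 2] [Algebra k F], (∀ c : k, ∃ c' : k, c' ^ 2 = c) →
  ∀ (x : F) (r : ℕ) (y : ℕ → F) (f : ℕ → Polynomial k), AS k F x r y f →
    IsFF k F ∧
    LinearIndependent k⟮x⟯ (fun I : {I : Finset ℕ // I ⊆ range r} => ∏ j ∈ (I : Finset ℕ), y j) ∧
    Submodule.span k⟮x⟯ (Set.range (fun I : {I : Finset ℕ // I ⊆ range r} => ∏ j ∈ (I : Finset ℕ), y j)) = ⊤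

/-- UNI (medium): the universal property.
Proof: induction on `r`. `r = 0`: `k(x)` is the field of rational functions, `x ↦ xM` (transcendental). Step: SBF, `ψ₀ : E → M`; `X^2 + X + f_r(x)` is irreducible over `E` (`[F : E] = 2` by TOW for `E` and `F`, or: TOW (iii) for
`E` shows that `f_r(x) ≠ w^2 + w`), `yM r` is a root of its image; so `ψ₀` extends with `y r ↦ yM r`. -/
def UNI_stmt : Prop := ∀ (k F M : Type) [Field k] [Field F] [Field M] [CharP k 2] [Algebra k F] [Algebra k M],
  (∀ c : k, ∃ c' : k, c' ^ 2 = c) → ∀ (x : F) (r : ℕ) (y : ℕ → F) (f : ℕ → Polynomial k), AS k F x r y f →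
    ∀ (xM : M) (yM : ℕ → M), Transcendental k xM → (∀ j < r, yM j ^ 2 + yM j = Polynomial.aeval xM (f j)) →
      ∃ ψ : F →ₐ[k] M, ψ x = xM ∧ ∀ j < r, ψ (y j) = yM j

/-- AUT (short): automorphisms: UNI for `M = F`, `yM j = y j + 1` for `j ∈ J`, bijective because it is an involution (its square fixes the
generators). -/
def AUT_stmt : Prop := ∀ (k F : Type) [Field k] [Field F] [CharP k 2] [Algebra k F], (∀ c : k, ∃ c' : k, c' ^ 2 = c) →
  ∀ (x : F) (r : ℕ) (y : ℕ → F) (f : ℕ → Polynomial k), AS k F x r y f → ∀ J : Finset ℕ,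
    ∃ σ : F ≃ₐ[k] F, σ x = x ∧ (∀ j < r, σ (y j) = y j + if j ∈ J then 1 else 0) ∧ ∀ z, σ (σ z) = z

/-! ## The genus -/

/-- RHG (short-medium): Riemann - Hurwitz with the genus `γ` of the fixed field. Proof: copy `Pool/Agent/helper2/AU/QH4.lean` (there `γ` is obtained from QR2; here it is
given), with the same hypotheses without QR2. -/
def RHG_stmt : Prop := ∀ (k F : Type) [Field k] [IsAlgClosed k] [Field F] [Algebra k F], IsFF k F →
  ∀ g : ℕ, IsGenus k F g → ∀ H : Subgroup (F ≃ₐ[k] F), Finite H → ∀ γ : ℕ,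
    IsGenus k (IntermediateField.fixedField H) γ →
    2 * (g : ℤ) - 2 = (Nat.card H : ℤ) * (2 * (γ : ℤ) - 2) +
      ∑ᶠ P : Place k F, ∑ᶠ s : H,
        if (s : F ≃ₐ[k] F) ≠ 1 ∧ (s : F ≃ₐ[k] F) • P = P then ((P.jump s : ℤ) + 1) else 0

/-- KL4 (medium): genera for a Klein four group.
Proof: write `D(s) = ∑ᶠ P, if s • P = P then jump + 1 else 0` for `s ≠ 1` (finite support: QF11). RHG: `2g - 2 = 4 (2 g_V - 2) + D(s) + D(t) + D(st)` for `V = {1, s, t, st}` and
`2g - 2 = 2 (2 g_s - 2) + D(s)` etc. Sum of the last three minus the first: `4 g - 4 = 4 (g_s + g_t + g_st) - 12 - 8 g_V + 8`. -/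
def KL4_stmt : Prop := ∀ (k F : Type) [Field k] [IsAlgClosed k] [Field F] [Algebra k F], IsFF k F →
  ∀ (s t : F ≃ₐ[k] F), s ≠ 1 → t ≠ 1 → s ≠ t → s * s = 1 → t * t = 1 → s * t = t * s →
    ∀ g gs gt gu gV : ℕ, IsGenus k F g → IsGenus k (IntermediateField.fixedField (Subgroup.zpowers s)) gs →
      IsGenus k (IntermediateField.fixedField (Subgroup.zpowers t)) gt →
      IsGenus k (IntermediateField.fixedField (Subgroup.zpowers (s * t))) gu →
      IsGenus k (IntermediateField.fixedField (Subgroup.closure {s, t})) gV →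
      g + 2 * gV = gs + gt + gu

/-- FIH (medium): fixed fields. `H` a subgroup with `2^t` elements fixing `x` and `y j`, `j < r`, in `F = k(x, y 0, ..., y (r+t-1))`. Then `fixedField H ⊇ k(x, y j : j < r)`, and both have index `2^t`
(`[F : F^H] = 2^t`; `k(x, y j : j < r)` has degree `2^r` over `k(x)` by TOW, `F` has degree `2^(r+t)`), so they are equal. -/
def FIH_stmt : Prop := ∀ (k F : Type) [Field k] [Field F] [CharP k 2] [Algebra k F], (∀ c : k, ∃ c' : k, c' ^ 2 = c) →
  ∀ (x : F) (r t : ℕ) (y : ℕ → F) (f : ℕ → Polynomial k), AS k F x (r + t) y f →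
    ∀ H : Subgroup (F ≃ₐ[k] F), Nat.card H = 2 ^ t → (∀ σ ∈ H, σ x = x ∧ ∀ j < r, σ (y j) = y j) →
      ∃ (x' : IntermediateField.fixedField H) (y' : ℕ → IntermediateField.fixedField H), (x' : F) = x ∧
        AS k (IntermediateField.fixedField H) x' r y' f

/-- ACH (short-medium): change of generators: exchange the last two, or add the last one to the last but one. (`r + 2` generators;
the partial sums of the new polynomials are partial sums of the old ones.) -/
def ACH_stmt : Prop := ∀ (k F : Type) [Field k] [Field F] [CharP k 2] [Algebra k F] (x : F) (r : ℕ) (y : ℕ → F)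
  (f : ℕ → Polynomial k), AS k F x (r + 2) y f →
    AS k F x (r + 2) (fun j => if j = r then y (r + 1) else if j = r + 1 then y r else y j)
      (fun j => if j = r then f (r + 1) else if j = r + 1 then f r else f j) ∧
    AS k F x (r + 2) (fun j => if j = r then y r + y (r + 1) else y j)
      (fun j => if j = r then f r + f (r + 1) else f j)

/-- GCM (medium): combinatorics of `gAS` (split the sets `T ⊆ range (r+2)` by `T ∩ {r, r + 1}`). -/
def GCM_stmt : Prop := ∀ (k : Type) [Field k] (r : ℕ) (f : ℕ → Polynomial k),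
  gAS (r + 2) f + 2 * gAS r f = gAS (r + 1) f + gAS (r + 1) (fun j => if j = r then f (r + 1) else f j) +
    gAS (r + 1) (fun j => if j = r then f r + f (r + 1) else f j)

/-- RGX (medium): functions of `x` without finite poles are polynomials. `k` algebraically closed. Proof: `a = p(x) / q(x)` with `p, q` coprime; if `q` has a root `c` there is a place `P` with
`P.ord (x - c) > 0` (QZ3), it is not a pole of `x`, `P ≠ P₀`, and `a` has a pole there. -/
def RGX_stmt : Prop := ∀ (k F : Type) [Field k] [IsAlgClosed k] [Field F] [Algebra k F], IsFF k F →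
  ∀ (x : F) (P₀ : Place k F), Transcendental k x → P₀.ord x < 0 → ∀ a ∈ k⟮x⟯, a ∈ Reg P₀ →
    ∃ p : Polynomial k, a = Polynomial.aeval x p

/-- GE0 (medium): genus 0. `F = k(x)`; by LIN the only pole of `x` is a simple pole `P₀`; QA1 (`n = 1`): Apery basis `u`, `μ`; `1 = φ(x) u_0` gives `μ 0 = 0` (orders); QR2 and QA3: `2 μ 0 = 2 g`. -/
def GE0_stmt : Prop := ∀ (k F : Type) [Field k] [IsAlgClosed k] [CharP k 2] [Field F] [Algebra k F] (x : F) (y : ℕ → F)
  (f : ℕ → Polynomial k), AS k F x 0 y f → IsGenus k F 0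

/-- GE1 (medium-long): genus of `y^2 + y = f(x)`, `deg f = d` odd.
Proof: `P₀` the place at infinity (TOW), `P₀.ord x = -2`, `P₀.ord y = -d` (`2 ord y = ord f(x) = - 2 d`). `OneP P₀ x 2 (1, y) (0, d)`: `y` is regular outside `P₀` (a pole of `y` is a pole of `f(x)`); span: for
`z = a + b y ∈ Reg P₀`, `a, b ∈ k(x)` (BAS), and `σ` from AUT (`J = {0}`; `σ P₀ = P₀` by uniqueness, so `σ` preserves `Reg P₀`), `b = z + σ z` and `a = z + b y` are in `Reg P₀`, so they are polynomials (RGX). QR2 and QA3: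
`2 (0 + d) = 2 (2 g + 1)`. -/
def GE1_stmt : Prop := ∀ (k F : Type) [Field k] [IsAlgClosed k] [CharP k 2] [Field F] [Algebra k F] (x : F) (y : ℕ → F)
  (f : ℕ → Polynomial k), AS k F x 1 y f → IsGenus k F (((f 0).natDegree - 1) / 2)

/-- GEN (medium-long): THE GENUS. Strong induction on `r`: GE0, GE1 (`gAS 1 f = (deg f 0 - 1)/2`, `gAS 0 f = 0`). For `r + 2`: `s`, `t` from AUT with `J = {r + 1}`, `J = {r}` (they commute, `s t` is the shift of both).
`fixedField <s>`: FIH (`t = 1`) for the given generators: type `r + 1`, `f`. `fixedField <t>`: FIH for the exchanged generators (ACH). `fixedField <s t>`: FIH for the third system (`s t` fixes `y r + y (r+1)`). `fixedField V`: FIH with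
`t = 2`. Induction hypothesis, QR2 (genus of `F`), KL4, GCM. -/
def GEN_stmt : Prop := ∀ (r : ℕ) (k F : Type) [Field k] [IsAlgClosed k] [CharP k 2] [Field F] [Algebra k F] (x : F) (y : ℕ → F)
  (f : ℕ → Polynomial k), AS k F x r y f → IsGenus k F (gAS r f)

/-! ## Rational points -/

/-- PSY (medium): power series solutions. `Y = y₀ + ∑_{i ≥ 0} (f(x₀ + t) - f(x₀))^(2^i)` (coefficientwise finite), `Y^2 + Y = f(x₀ + t)`. -/
def PSY_stmt : Prop := ∀ (k : Type) [Field k] [CharP k 2] (f : Polynomial k) (x₀ y₀ : k), y₀ ^ 2 + y₀ = f.eval x₀ →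
  ∃ Y : LS k, (∀ n < 0, cf Y n = 0) ∧ cf Y 0 = y₀ ∧
    Y ^ 2 + Y = Polynomial.aeval (LS.C x₀ + mono 1 1) f

/-- LSP (medium): the place attached to an embedding into `k((t))`. The order of Laurent series; `x - x₀ ↦ t` is a uniformiser; residue field `k` (constant terms). -/
def LSP_stmt : Prop := ∀ (k F : Type) [Field k] [Field F] [Algebra k F] (ψ : F →ₐ[k] LS k) (x : F) (x₀ : k),
  ψ x = LS.C x₀ + mono 1 1 → ∃ P : Place k F, DegOne P ∧
    ∀ (f : F), (∀ n < 0, cf (ψ f) n = 0) → P.Ge 1 (f - algebraMap k F (cf (ψ f) 0))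

/-- AFE (short-medium): existence of the place over an affine point: PSY for all `j`, UNI with `M = LS k` (`x₀ + t` is transcendental), LSP. -/
def AFE_stmt : Prop := ∀ (k F : Type) [Field k] [Field F] [CharP k 2] [Algebra k F], (∀ c : k, ∃ c' : k, c' ^ 2 = c) →
  ∀ (x : F) (r : ℕ) (y : ℕ → F) (f : ℕ → Polynomial k), AS k F x r y f → ∀ (x₀ : k) (y₀ : ℕ → k),
    (∀ j < r, y₀ j ^ 2 + y₀ j = (f j).eval x₀) →
      ∃ P : Place k F, DegOne P ∧ P.Ge 1 (x - algebraMap k F x₀) ∧ ∀ j < r, P.Ge 1 (y j - algebraMap k F (y₀ j))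

/-- AFU (medium-long): uniqueness of the place over an affine point.
Proof: for every `N` there are polynomials `g_j` with `g_j(x₀) = y₀ j` and `g_j^2 + g_j = f_j` modulo `(X - x₀)^N` (truncate PSY, or `g_j = y₀ + ∑_{i<N} (f_j - f_j(x₀))^(2^i)`). At a place `P` over the point, `e = P.ord (x - x₀) ≥ 1`: `w = y j - g_j(x)` has `P.Ge 1 w`,
and `w^2 + w = (f_j - g_j^2 - g_j)(x)` has order `≥ N e`, so `P.Ge (N e) w`. So for a polynomial expression `G` in `x, y j`: `G = G_N(x) + (order ≥ N e)`, `G_N` the polynomial obtained by `y j ↦ g_j`; for `G ≠ 0` and `N e > P.ord G`: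
`P.ord G = P.ord G_N(x) = e v(G_N)`, `v` = order at `x₀`. The same for `P'` with the same `N` large, so `e' P.ord G = e P'.ord G` for all `G ∈ k[x, y]`, hence for all of `F` (quotients); both are normalised, so `e = e'`. -/
def AFU_stmt : Prop := ∀ (k F : Type) [Field k] [Field F] [CharP k 2] [Algebra k F] (x : F) (r : ℕ) (y : ℕ → F)
  (f : ℕ → Polynomial k), AS k F x r y f → ∀ (x₀ : k) (y₀ : ℕ → k) (P P' : Place k F),
    P.Ge 1 (x - algebraMap k F x₀) → (∀ j < r, P.Ge 1 (y j - algebraMap k F (y₀ j))) →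
    P'.Ge 1 (x - algebraMap k F x₀) → (∀ j < r, P'.Ge 1 (y j - algebraMap k F (y₀ j))) → P = P'

/-- AFV (short): a place of degree one which is not a pole of `x` lies over an affine point (`y j` is regular since `y j ^ 2 + y j = f j (x)` is;
values). -/
def AFV_stmt : Prop := ∀ (k F : Type) [Field k] [Field F] [CharP k 2] [Algebra k F] (x : F) (r : ℕ) (y : ℕ → F)
  (f : ℕ → Polynomial k), AS k F x r y f → ∀ P : Place k F, DegOne P → P.Ge 0 x →
    ∃ (x₀ : k) (y₀ : ℕ → k), P.Ge 1 (x - algebraMap k F x₀) ∧ (∀ j < r, P.Ge 1 (y j - algebraMap k F (y₀ j))) ∧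
      ∀ j < r, y₀ j ^ 2 + y₀ j = (f j).eval x₀

/-- RPT (medium): the number of rational points (AFE, AFU, AFV: bijection of the degree one places with `P.Ge 0 x` and the solutions; TOW: exactly one place with `ord x < 0`, of degree one).
A finite field of characteristic 2 is perfect. -/
def RPT_stmt : Prop := ∀ (K F : Type) [Field K] [Fintype K] [CharP K 2] [Field F] [Algebra K F] (x : F) (r : ℕ) (y : ℕ → F)
  (f : ℕ → Polynomial K), AS K F x r y f →
    numPts K F = 1 + Nat.card {p : K × (Fin r → K) // ∀ j : Fin r, p.2 j ^ 2 + p.2 j = (f j).eval p.1}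

/-! ## Existence and constant field extension -/

/-- EXA (medium): existence. `Ω` = algebraic closure of `RatFunc k`, `k = AlgebraicClosure K`; `x = X`, `y j` a root of `Y^2 + Y + f j (x)`; `F = K(x, y j)`, `F' = k(x, y j)` inside `Ω` (intermediate fields). The degrees of the partial sums do not
change under `K → k`. -/
def EXA_stmt : Prop := ∀ (K : Type) [Field K] [CharP K 2] (r : ℕ) (f : ℕ → Polynomial K),
  (∀ T ⊆ range r, T ≠ ∅ → Odd (∑ j ∈ T, f j).natDegree) →
    ∃ (F : Type) (_ : Field F) (_ : Algebra K F) (F' : Type) (_ : Field F') (_ : Algebra (AlgebraicClosure K) F')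
      (j : F →+* F') (x : F) (y : ℕ → F), AS K F x r y f ∧
      AS (AlgebraicClosure K) F' (j x) r (fun i => j (y i)) (fun i => (f i).map (algebraMap K (AlgebraicClosure K))) ∧
      ∀ c : K, j (algebraMap K F c) = algebraMap (AlgebraicClosure K) F' (algebraMap K (AlgebraicClosure K) c)

/-- CEX (medium-long): constant field extension.
Proof: second condition: `F'` is generated by `k` and `j(F)`: the `k`-span of `j(F)` is a subring `R` containing `k`, `j x`, `j (y i)`; every element of `F' = k(j x, j (y i))` is a quotient of elements of `R`. Third condition: `v_1, ..., v_n ∈ F` independent over `K`,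
`∑ c_i j(v_i) = 0`, `c_i ∈ k`. By BAS write `v_i = ∑_I (p_{iI}(x) / D(x)) y^I` with `p_{iI}, D ∈ K[X]`; by BAS for `F'`, `∑_i c_i p_{iI}(j x) = 0` for all `I`, so `∑_i c_i (coefficient m of p_{iI}) = 0` for all `I, m`. For every `K`-linear `λ : k → K`:
`∑_i λ(c_i) v_i = 0`, so `λ(c_i) = 0` for all `λ`, so `c_i = 0`. -/
def CEX_stmt : Prop := ∀ (K F F' : Type) [Field K] [CharP K 2] [Field F] [Algebra K F] [Field F']
  [Algebra (AlgebraicClosure K) F'] (j : F →+* F') (x : F) (r : ℕ) (y : ℕ → F) (f : ℕ → Polynomial K),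
  (∀ c : K, ∃ c' : K, c' ^ 2 = c) → AS K F x r y f →
  AS (AlgebraicClosure K) F' (j x) r (fun i => j (y i)) (fun i => (f i).map (algebraMap K (AlgebraicClosure K))) →
  (∀ c : K, j (algebraMap K F c) = algebraMap (AlgebraicClosure K) F' (algebraMap K (AlgebraicClosure K) c)) →
    IsConstExt K (AlgebraicClosure K) F F' j

/-! ## Assembly -/

/-- FRM (short-medium): forms as polynomials. `pa H a` for a form of level `h ≤ H`, `h ≥ 1`: degree `2^h + 1`; values; sums. -/
def FRM_stmt : Prop := ∀ (k : Type) [Field k],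
  (∀ (h H : ℕ) (a : ℕ → k), 1 ≤ h → h ≤ H → Lev h a → (pa H a).natDegree = 2 ^ h + 1 ∧
    ∀ x : k, (pa H a).eval x = fa h a x) ∧
  ∀ (H : ℕ) (A : ℕ → ℕ → k) (T : Finset ℕ), ∑ j ∈ T, pa H (A j) = pa H (sumT A T)

/-- CUR (medium): from forms over a finite field to a maximal curve.
Proof: `H` = a bound for the levels `lev T`, `f j = pa H (A j)`; by FRM the partial sums have the odd degrees `2^(lev T) + 1`, and `gAS r f = GG r lev`. EXA, CEX (`K` is perfect), BAS (`IsFF`), GEN for `F'` (degrees unchanged; `gAS` of the mapped polynomials is the same). RPT, PTS: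
`numPts = 1 + ∑_{T ⊆ range r} ∑_x ps (fa ..) = 1 + 4^n + ∑_{T ≠ ∅} 2^(lev T) 2^n = 1 + 4^n + 2 g 2^n`, and `√(4^n) = 2^n`. -/
def CUR_stmt : Prop := ∀ (K : Type) [Field K] [Fintype K] (n : ℕ), Fintype.card K = 4 ^ n →
  ∀ (r : ℕ) (A : ℕ → ℕ → K) (lev : Finset ℕ → ℕ),
    (∀ T ⊆ range r, T ≠ ∅ → 1 ≤ lev T ∧ Lev (lev T) (sumT A T) ∧
      ∑ x : K, ps (fa (lev T) (sumT A T) x) = 2 ^ (lev T) * 2 ^ n) → HasMaxCurve K (GG r lev)

/-- SPE (medium): from the local field to finite fields.
Proof: `E` = union over the nonempty `T ⊆ range r` of the sets of CTR for the certificates of `A_T`, and all `A j i` (`j < r`, `i ≤` the levels), all `bb (lev T) (sumT A T) i` (`i ≤ lev T`) and the inverses of the top coordinates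
`sumT A T (lev T)`. ENG with the sign `(-1)^(n+1)`: `φ : B → K`. `A' j i = φ (A j i)` (0 for `i` beyond all levels): `Lev (lev T) (sumT A' T)` (the top coordinate is a unit), certificate `Cert K (φ thL) (lev T) (bb (lev T) (sumT A' T))` (CTR), so
the sum is `2^(lev T) 2^n` (CSM, FAB); `lev T ≥ 1` (CNG). -/
def SPE_stmt : Prop := ∀ (r : ℕ) (A : ℕ → ℕ → Lam) (lev : Finset ℕ → ℕ), Good Lam thL r A lev →
  ∃ n₀ : ℕ, ∀ n : ℕ, n₀ ≤ n → ∀ (K : Type) [Field K] [Fintype K], Fintype.card K = 4 ^ n →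
    ∃ A' : ℕ → ℕ → K, ∀ T ⊆ range r, T ≠ ∅ → 1 ≤ lev T ∧ Lev (lev T) (sumT A' T) ∧
      ∑ x : K, ps (fa (lev T) (sumT A' T) x) = 2 ^ (lev T) * 2 ^ n

/-- MAI (short): THE THEOREM. LFI, SPE, CUR; maximum of the `n₀` for `g ≤ G`. -/
def MAI_stmt : Prop := ∀ G : ℕ, ∃ n₀ : ℕ, ∀ n : ℕ, n₀ ≤ n → ∀ (K : Type) [Field K] [Fintype K],
  Fintype.card K = 4 ^ n → ∀ g : ℕ, g ≤ G → HasMaxCurve K g

end

end MX
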